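import Mathlib

/-!
# Rademacher rounding of a scalar product
-/

set_option autoImplicit false

open Finset

namespace Pool.Agent.LRA

/-- sign of a bit -/
def sgn (b : Bool) : ℝ := if b then 1 else -1

theorem sgn_mul_self (b : Bool) : sgn b * sgn b = 1 := by cases b <;> simp [sgn]

/-- average over the cube -/
noncomputable def cav (n : ℕ) (F : (Fin n → Bool) → ℝ) : ℝ := (2 ^ n : ℝ)⁻¹ * ∑ ξ, F ξ

theorem cav_mono {n : ℕ} {F G : (Fin n → Bool) → ℝ} (h : ∀ ξ, F ξ ≤ G ξ) : cav n F ≤ cav n G := by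
  unfold cav
  exact mul_le_mul_of_nonneg_left (Finset.sum_le_sum fun ξ _ => h ξ) (by positivity)

theorem cav_const (n : ℕ) (c : ℝ) : cav n (fun _ => c) = c := by
  unfold cav
  rw [Finset.sum_const, Finset.card_univ, Fintype.card_fun, Fintype.card_bool, Fintype.card_fin,
    nsmul_eq_mul]
  push_cast
  field_simp

theorem cav_add {n : ℕ} (F G : (Fin n → Bool) → ℝ) :
    cav n (fun ξ => F ξ + G ξ) = cav n F + cav n G := by
  unfold cav
  rw [Finset.sum_add_distrib, mul_add]

theorem cav_sub {n : ℕ} (F G : (Fin n → Bool) → ℝ) :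
    cav n (fun ξ => F ξ - G ξ) = cav n F - cav n G := by
  unfold cav
  rw [Finset.sum_sub_distrib, mul_sub]

theorem cav_smul {n : ℕ} (c : ℝ) (F : (Fin n → Bool) → ℝ) :
    cav n (fun ξ => c * F ξ) = c * cav n F := by
  unfold cav
  rw [← Finset.mul_sum]
  ring

theorem cav_sum {n : ℕ} {ι : Type*} (s : Finset ι) (F : ι → (Fin n → Bool) → ℝ) :
    cav n (fun ξ => ∑ i ∈ s, F i ξ) = ∑ i ∈ s, cav n (F i) := by
  unfold cav
  rw [Finset.sum_comm, Finset.mul_sum]

theorem sum_cube (n : ℕ) (g : Fin n → Bool → ℝ) :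
    ∑ ξ : Fin n → Bool, ∏ i, g i (ξ i) = ∏ i, (g i true + g i false) := by
  have h := Finset.prod_univ_sum (fun _ : Fin n => (Finset.univ : Finset Bool)) g
  rw [Fintype.piFinset_univ] at h
  rw [← h]
  apply Finset.prod_congr rfl
  intro i _
  simp

theorem cav_pair (n : ℕ) (i j : Fin n) :
    cav n (fun ξ => sgn (ξ i) * sgn (ξ j)) = if i = j then 1 else 0 := by
  split_ifs with h
  · subst h
    simp only [sgn_mul_self]
    exact cav_const n 1
  · unfold cav
    have h1 : ∀ ξ : Fin n → Bool, sgn (ξ i) * sgn (ξ j) =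
        ∏ k, ((if k = i then sgn (ξ k) else 1) * (if k = j then sgn (ξ k) else 1)) := by
      intro ξ
      rw [Finset.prod_mul_distrib]
      simp
    simp only [h1]
    rw [sum_cube n (fun k b => (if k = i then sgn b else 1) * (if k = j then sgn b else 1))]
    rw [Finset.prod_eq_zero (Finset.mem_univ i), mul_zero]
    simp [h, sgn]

/-- linear form on the cube -/
noncomputable def lin {n : ℕ} (a : Fin n → ℝ) (ξ : Fin n → Bool) : ℝ := ∑ i, a i * sgn (ξ i)

theorem cav_lin_lin {n : ℕ} (a q : Fin n → ℝ) :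
    cav n (fun ξ => lin a ξ * lin q ξ) = ∑ i, a i * q i := by
  have h1 : ∀ ξ, lin a ξ * lin q ξ = ∑ i, ∑ j, (a i * q j) * (sgn (ξ i) * sgn (ξ j)) := by
    intro ξ
    unfold lin
    rw [Finset.sum_mul_sum]
    apply Finset.sum_congr rfl
    intro i _
    apply Finset.sum_congr rfl
    intro j _
    ring
  simp only [h1]
  rw [cav_sum]
  apply Finset.sum_congr rfl
  intro i _
  rw [cav_sum]
  have h2 : ∀ j, cav n (fun ξ => (a i * q j) * (sgn (ξ i) * sgn (ξ j))) =
      if i = j then a i * q j else 0 := by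
    intro j
    rw [cav_smul, cav_pair]
    split_ifs <;> ring
  simp only [h2]
  simp

theorem cav_exp {n : ℕ} (a : Fin n → ℝ) (t : ℝ) :
    cav n (fun ξ => Real.exp (t * lin a ξ)) ≤ Real.exp (t ^ 2 * (∑ i, a i ^ 2) / 2) := by
  unfold cav
  have h1 : ∀ ξ : Fin n → Bool, Real.exp (t * lin a ξ) =
      ∏ i, Real.exp (t * a i * sgn (ξ i)) := by
    intro ξ
    rw [← Real.exp_sum]
    unfold lin
    rw [Finset.mul_sum]
    congr 1
    apply Finset.sum_congr rfl
    intro i _
    ring
  simp only [h1]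
  rw [sum_cube n (fun i b => Real.exp (t * a i * sgn b))]
  have h2 : ∀ i, Real.exp (t * a i * sgn true) + Real.exp (t * a i * sgn false) =
      2 * Real.cosh (t * a i) := by
    intro i
    rw [Real.cosh_eq]
    simp [sgn]
    ring
  simp only [h2]
  rw [Finset.prod_mul_distrib, Finset.prod_const, Finset.card_univ, Fintype.card_fin, ← mul_assoc,
    inv_mul_cancel₀ (by positivity), one_mul]
  calc ∏ i, Real.cosh (t * a i) ≤ ∏ i, Real.exp ((t * a i) ^ 2 / 2) :=
        Finset.prod_le_prod (fun i _ => (Real.cosh_pos _).le) fun i _ =>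
          Real.cosh_le_exp_half_sq _
    _ = Real.exp (t ^ 2 * (∑ i, a i ^ 2) / 2) := by
        rw [← Real.exp_sum]
        congr 1
        rw [Finset.mul_sum, Finset.sum_div]
        apply Finset.sum_congr rfl
        intro i _
        ring

/-- clipping at `L` -/
noncomputable def clip (L s : ℝ) : ℝ := max (-L) (min L s)

theorem clip_abs_le {L : ℝ} (hL : 0 ≤ L) (s : ℝ) : |clip L s| ≤ L := by
  unfold clip
  rw [abs_le]
  refine ⟨le_max_left _ _, max_le (by linarith) (min_le_left _ _)⟩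

theorem clip_le_abs {L : ℝ} (hL : 0 ≤ L) (s : ℝ) : |clip L s| ≤ |s| := by
  unfold clip
  rcases le_total s L with h1 | h1
  · rw [min_eq_right h1]
    rcases le_total (-L) s with h2 | h2
    · rw [max_eq_right h2]
    · rw [max_eq_left h2, abs_neg, abs_of_nonneg hL, abs_of_nonpos (by linarith)]
      linarith
  · rw [min_eq_left h1, max_eq_right (by linarith), abs_of_nonneg hL]
    exact le_trans h1 (le_abs_self s)

/-- the excess over `L` -/
noncomputable def exc (L s : ℝ) : ℝ := max 0 (|s| - L)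

theorem sub_clip {L : ℝ} (hL : 0 ≤ L) (s : ℝ) : |s - clip L s| = exc L s := by
  unfold clip exc
  rcases le_total s L with h1 | h1
  · rw [min_eq_right h1]
    rcases le_total (-L) s with h2 | h2
    · rw [max_eq_right h2, sub_self, abs_zero, max_eq_left]
      have := abs_le.mpr ⟨h2, h1⟩
      linarith
    · rw [max_eq_left h2, abs_of_nonpos (by linarith : s - -L ≤ 0),
        abs_of_nonpos (by linarith : s ≤ 0), max_eq_right (by linarith)]
      ring
  · rw [min_eq_left h1, max_eq_right (by linarith), abs_of_nonneg (by linarith),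
      abs_of_nonneg (by linarith : 0 ≤ s), max_eq_right (by linarith)]

theorem exc_nonneg (L s : ℝ) : 0 ≤ exc L s := le_max_left _ _

/-- tail of the second moment of the excess -/
theorem cav_exc {n : ℕ} {a : Fin n → ℝ} (ha : ∑ i, a i ^ 2 ≤ 1) {L : ℝ} (hL : 2 ≤ L) :
    cav n (fun ξ => exc L (lin a ξ) ^ 2) ≤ Real.exp (-(L ^ 2 / 2)) := by
  have hsq : ∀ x : ℝ, 0 ≤ x → x ^ 2 ≤ 2 * Real.exp x := by
    intro x hx
    have := Real.quadratic_le_exp_of_nonneg hx
    nlinarith
  have key : ∀ s : ℝ, exc L s ^ 2 ≤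
      2 / L ^ 2 * Real.exp (-L ^ 2) * (Real.exp (L * s) + Real.exp ((-L) * s)) := by
    intro s
    have hpos : 0 ≤ 2 / L ^ 2 * Real.exp (-L ^ 2) * (Real.exp (L * s) + Real.exp ((-L) * s)) := by
      positivity
    unfold exc
    rcases le_total (|s| - L) 0 with h | h
    · rw [max_eq_left h]
      simpa using hpos
    · rw [max_eq_right h]
      have h1 := hsq (L * (|s| - L)) (mul_nonneg (by linarith) h)
      have h2 : Real.exp (L * |s|) ≤ Real.exp (L * s) + Real.exp ((-L) * s) := by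
        rcases abs_cases s with ⟨h3, _⟩ | ⟨h3, _⟩
        · rw [h3]
          have := (Real.exp_pos ((-L) * s)).le
          linarith
        · rw [h3]
          have h4 : L * -s = (-L) * s := by ring
          rw [h4]
          have := (Real.exp_pos (L * s)).le
          linarith
      have h5 : Real.exp (L * (|s| - L)) = Real.exp (-L ^ 2) * Real.exp (L * |s|) := by
        rw [← Real.exp_add]
        congr 1
        ring
      rw [h5] at h1
      have hL0 : (0 : ℝ) < L ^ 2 := by positivity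
      have h6 : (|s| - L) ^ 2 = (L * (|s| - L)) ^ 2 / L ^ 2 := by
        field_simp
      rw [h6, div_le_iff₀ hL0]
      calc (L * (|s| - L)) ^ 2 ≤ 2 * (Real.exp (-L ^ 2) * Real.exp (L * |s|)) := h1
        _ ≤ 2 * (Real.exp (-L ^ 2) * (Real.exp (L * s) + Real.exp ((-L) * s))) := by
            have := (Real.exp_pos (-L ^ 2)).le
            gcongr
        _ = _ := by field_simp
  calc cav n (fun ξ => exc L (lin a ξ) ^ 2)
      ≤ cav n (fun ξ => 2 / L ^ 2 * Real.exp (-L ^ 2) *
          (Real.exp (L * lin a ξ) + Real.exp ((-L) * lin a ξ))) := cav_mono fun ξ => key _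
    _ = 2 / L ^ 2 * Real.exp (-L ^ 2) * (cav n (fun ξ => Real.exp (L * lin a ξ)) +
          cav n (fun ξ => Real.exp ((-L) * lin a ξ))) := by
        rw [cav_smul, cav_add]
    _ ≤ 2 / L ^ 2 * Real.exp (-L ^ 2) * (Real.exp (L ^ 2 / 2) + Real.exp (L ^ 2 / 2)) := by
        have h1 : cav n (fun ξ => Real.exp (L * lin a ξ)) ≤ Real.exp (L ^ 2 / 2) := by
          refine (cav_exp a L).trans (Real.exp_le_exp.mpr ?_)
          have : L ^ 2 * (∑ i, a i ^ 2) ≤ L ^ 2 * 1 := by gcongr
          linarith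
        have h2 : cav n (fun ξ => Real.exp ((-L) * lin a ξ)) ≤ Real.exp (L ^ 2 / 2) := by
          refine (cav_exp a (-L)).trans (Real.exp_le_exp.mpr ?_)
          have : (-L) ^ 2 * (∑ i, a i ^ 2) ≤ L ^ 2 * 1 := by
            rw [neg_sq]
            gcongr
          linarith
        gcongr
    _ = 4 / L ^ 2 * Real.exp (-(L ^ 2 / 2)) := by
        have : Real.exp (-L ^ 2) * Real.exp (L ^ 2 / 2) = Real.exp (-(L ^ 2 / 2)) := by
          rw [← Real.exp_add]
          congr 1
          ring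
        rw [← this]
        ring
    _ ≤ 1 * Real.exp (-(L ^ 2 / 2)) := by
        have h1 : 4 / L ^ 2 ≤ 1 := by
          rw [div_le_one (by positivity)]
          nlinarith
        have := (Real.exp_pos (-(L ^ 2 / 2))).le
        gcongr
    _ = _ := one_mul _

/-- clipping changes the scalar product by at most `2 exp (-L ^ 2 / 4)` -/
theorem round_err {n : ℕ} {a q : Fin n → ℝ} (ha : ∑ i, a i ^ 2 ≤ 1) (hq : ∑ i, q i ^ 2 ≤ 1)
    {L : ℝ} (hL : 2 ≤ L) :
    |∑ i, a i * q i - cav n (fun ξ => clip L (lin a ξ) * clip L (lin q ξ))| ≤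
      2 * Real.exp (-(L ^ 2 / 4)) := by
  have hL0 : (0 : ℝ) ≤ L := by linarith
  set η : ℝ := Real.exp (-(L ^ 2 / 4)) with hη
  have hη0 : 0 < η := Real.exp_pos _
  have hη2 : Real.exp (-(L ^ 2 / 2)) = η ^ 2 := by
    rw [hη, ← Real.exp_nat_mul]
    congr 1
    push_cast
    ring
  rw [← cav_lin_lin, ← cav_sub]
  have key : ∀ s t : ℝ, |s * t - clip L s * clip L t| ≤
      η / 2 * t ^ 2 + (2 * η)⁻¹ * exc L s ^ 2 + (η / 2 * s ^ 2 + (2 * η)⁻¹ * exc L t ^ 2) := by
    intro s t
    have h1 : s * t - clip L s * clip L t = (s - clip L s) * t + clip L s * (t - clip L t) := by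
      ring
    have amgm : ∀ u v : ℝ, 0 ≤ u → 0 ≤ v → u * v ≤ η / 2 * v ^ 2 + (2 * η)⁻¹ * u ^ 2 := by
      intro u v _ _
      have h2 : 0 ≤ (2 * η)⁻¹ * (η * v - u) ^ 2 := by positivity
      have h3 : (2 * η)⁻¹ * (η * v - u) ^ 2 = η / 2 * v ^ 2 + (2 * η)⁻¹ * u ^ 2 - u * v := by
        field_simp
        ring
      linarith
    calc |s * t - clip L s * clip L t| ≤ |(s - clip L s) * t| + |clip L s * (t - clip L t)| := by
          rw [h1]
          exact abs_add_le _ _
      _ = exc L s * |t| + |clip L s| * exc L t := by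
          rw [abs_mul, abs_mul, sub_clip hL0, sub_clip hL0]
      _ ≤ exc L s * |t| + exc L t * |s| := by
          have := clip_le_abs hL0 s
          have := exc_nonneg L t
          nlinarith
      _ ≤ _ := by
          have h2 := amgm (exc L s) |t| (exc_nonneg _ _) (abs_nonneg _)
          have h3 := amgm (exc L t) |s| (exc_nonneg _ _) (abs_nonneg _)
          rw [sq_abs] at h2 h3
          linarith
  have habs : ∀ F : (Fin n → Bool) → ℝ, |cav n F| ≤ cav n (fun ξ => |F ξ|) := by
    intro F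
    unfold cav
    rw [abs_mul, abs_of_nonneg (by positivity : (0 : ℝ) ≤ (2 ^ n : ℝ)⁻¹)]
    exact mul_le_mul_of_nonneg_left (Finset.abs_sum_le_sum_abs _ _) (by positivity)
  refine (habs _).trans ((cav_mono fun ξ => key (lin a ξ) (lin q ξ)).trans ?_)
  rw [cav_add, cav_add, cav_add, cav_smul, cav_smul, cav_smul, cav_smul]
  have e1 : cav n (fun ξ => lin a ξ ^ 2) ≤ 1 := by
    have := cav_lin_lin a a
    simp only [← sq] at this
    rw [this]
    exact ha
  have e2 : cav n (fun ξ => lin q ξ ^ 2) ≤ 1 := by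
    have := cav_lin_lin q q
    simp only [← sq] at this
    rw [this]
    exact hq
  have e3 := cav_exc ha hL
  have e4 := cav_exc hq hL
  rw [hη2] at e3 e4
  have h5 : (2 * η)⁻¹ * cav n (fun ξ => exc L (lin a ξ) ^ 2) ≤ η / 2 := by
    calc _ ≤ (2 * η)⁻¹ * η ^ 2 := by gcongr
      _ = η / 2 := by field_simp
  have h6 : (2 * η)⁻¹ * cav n (fun ξ => exc L (lin q ξ) ^ 2) ≤ η / 2 := by
    calc _ ≤ (2 * η)⁻¹ * η ^ 2 := by gcongr
      _ = η / 2 := by field_simp
  have h7 : η / 2 * cav n (fun ξ => lin q ξ ^ 2) ≤ η / 2 := by nlinarith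
  have h8 : η / 2 * cav n (fun ξ => lin a ξ ^ 2) ≤ η / 2 := by nlinarith
  linarith

end Pool.Agent.LRA
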