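import Pool.Agent.Lib_helper40.LR2.Amp1
import Pool.Agent.Lib_helper59.LR2.Freeze

/-!
# A locally stable product state of a Boolean matrix of small rank
-/

set_option autoImplicit false
set_option linter.unusedSectionVars false

open Finset Matrix

namespace Pool.Agent.LR2

namespace Amp

open Pool.Agent.LRA

variable {X Y : Type} [Fintype X] [Fintype Y]

/-- the discrepancy of `p - N` against `φ ⊗ ψ` -/
noncomputable def bb (α : X → ℝ) (β : Y → ℝ) (N : X → Y → ℝ) (p : ℝ) (φ : X → ℝ) (ψ : Y → ℝ) : ℝ :=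
  ∑ x, ∑ y, α x * β y * (φ x * ψ y * (p - N x y))

/-- local stability of the state -/
def Stab (α : X → ℝ) (β : Y → ℝ) (N : X → Y → ℝ) (ε T : ℝ) : Prop :=
  ∀ (α' : X → ℝ) (β' : Y → ℝ) (s t : ℝ), IsPr α' → IsPr β' → 0 ≤ s → s ≤ T → 0 ≤ t → t ≤ T →
    (∀ x, α' x ≤ Real.exp s * α x) → (∀ y, β' y ≤ Real.exp t * β y) →
    em α β N * (1 - 2 * ε * (s + t)) ≤ em α' β' N

theorem bb_comb (α : X → ℝ) (β : Y → ℝ) (N : X → Y → ℝ) (p : ℝ) (φ φ' : X → ℝ) (ψ : Y → ℝ) :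
    bb α β N p (fun x => φ x - φ' x) ψ = bb α β N p φ ψ - bb α β N p φ' ψ := by
  unfold bb
  simp only [← Finset.sum_sub_distrib]
  refine Finset.sum_congr rfl fun x _ => Finset.sum_congr rfl fun y _ => ?_
  ring

theorem bb_comb' (α : X → ℝ) (β : Y → ℝ) (N : X → Y → ℝ) (p : ℝ) (φ : X → ℝ) (ψ ψ' : Y → ℝ) :
    bb α β N p φ (fun y => ψ y - ψ' y) = bb α β N p φ ψ - bb α β N p φ ψ' := by
  unfold bb
  simp only [← Finset.sum_sub_distrib]
  refine Finset.sum_congr rfl fun x _ => Finset.sum_congr rfl fun y _ => ?_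
  ring

theorem bb_expand (α : X → ℝ) (β : Y → ℝ) (N : X → Y → ℝ) (p : ℝ) (φ : X → ℝ) (ψ : Y → ℝ) :
    bb α β N p φ ψ = (∑ x, α x * φ x) * (∑ y, β y * ψ y) * p -
      ∑ x, ∑ y, (α x * φ x) * (β y * ψ y) * N x y := by
  unfold bb
  rw [Finset.sum_mul_sum, Finset.sum_mul, ← Finset.sum_sub_distrib]
  apply Finset.sum_congr rfl
  intro x _
  rw [Finset.sum_mul, ← Finset.sum_sub_distrib]
  apply Finset.sum_congr rfl
  intro y _
  ring

theorem bb_one {α : X → ℝ} {β : Y → ℝ} (hα : IsPr α) (hβ : IsPr β) (N : X → Y → ℝ) :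
    bb α β N (em α β N) (fun _ => 1) (fun _ => 1) = 0 := by
  rw [bb_expand]
  simp only [mul_one]
  rw [hα.sum, hβ.sum]
  unfold em
  ring

section Cut

variable {α : X → ℝ} {β : Y → ℝ} {N : X → Y → ℝ} {ε T : ℝ}

theorem em_nonneg' (hα : IsPr α) (hβ : IsPr β) (hN : ∀ x y, 0 ≤ N x y) : 0 ≤ em α β N := by
  unfold em
  exact Finset.sum_nonneg fun x _ => Finset.sum_nonneg fun y _ =>
    mul_nonneg (mul_nonneg (hα.nonneg x) (hβ.nonneg y)) (hN x y)

theorem mean_bounds (hα : IsPr α) {φ : X → ℝ} (h0 : ∀ x, 0 ≤ φ x) (h1 : ∀ x, φ x ≤ 1) :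
    0 ≤ ∑ x, α x * φ x ∧ ∑ x, α x * φ x ≤ 1 := by
  constructor
  · exact Finset.sum_nonneg fun x _ => mul_nonneg (hα.nonneg x) (h0 x)
  · rw [← hα.sum]
    exact Finset.sum_le_sum fun x _ => mul_le_of_le_one_right (hα.nonneg x) (h1 x)

theorem cond_pr (hα : IsPr α) {φ : X → ℝ} (h0 : ∀ x, 0 ≤ φ x) (hP : 0 < ∑ x, α x * φ x) :
    IsPr (fun x => α x * φ x / ∑ x', α x' * φ x') := by
  constructor
  · intro x
    exact div_nonneg (mul_nonneg (hα.nonneg x) (h0 x)) hP.le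
  · rw [← Finset.sum_div, div_self hP.ne']

theorem cond_le (hα : IsPr α) {φ : X → ℝ} (h1 : ∀ x, φ x ≤ 1) (hP : 0 < ∑ x, α x * φ x)
    (x : X) : α x * φ x / (∑ x', α x' * φ x') ≤
      Real.exp (-Real.log (∑ x', α x' * φ x')) * α x := by
  rw [Real.exp_neg, Real.exp_log hP, div_eq_inv_mul]
  apply mul_le_mul_of_nonneg_left _ (inv_nonneg.mpr hP.le)
  exact mul_le_of_le_one_right (hα.nonneg x) (h1 x)

/-- the upper cut bound -/
theorem cut_up (hα : IsPr α) (hβ : IsPr β) (hN : ∀ x y, 0 ≤ N x y) (hε : 0 < ε)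
    (hT : Real.exp (-T) ≤ 4 * ε) (hst : Stab α β N ε T) {φ : X → ℝ} {ψ : Y → ℝ}
    (h0 : ∀ x, 0 ≤ φ x) (h1 : ∀ x, φ x ≤ 1) (h0' : ∀ y, 0 ≤ ψ y) (h1' : ∀ y, ψ y ≤ 1) :
    bb α β N (em α β N) φ ψ ≤ 4 * ε * em α β N := by
  set p := em α β N with hp
  have hp0 : 0 ≤ p := em_nonneg' hα hβ hN
  obtain ⟨P0, P1⟩ := mean_bounds hα h0 h1
  obtain ⟨Q0, Q1⟩ := mean_bounds hβ h0' h1'
  set P := ∑ x, α x * φ x with hP
  set Q := ∑ y, β y * ψ y with hQ
  have hnn : 0 ≤ ∑ x, ∑ y, (α x * φ x) * (β y * ψ y) * N x y :=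
    Finset.sum_nonneg fun x _ => Finset.sum_nonneg fun y _ =>
      mul_nonneg (mul_nonneg (mul_nonneg (hα.nonneg x) (h0 x)) (mul_nonneg (hβ.nonneg y) (h0' y)))
        (hN x y)
  have hexp := bb_expand α β N p φ ψ
  rw [← hP, ← hQ] at hexp
  have htriv : bb α β N p φ ψ ≤ P * Q * p := by linarith
  by_cases hPT : P ≤ Real.exp (-T)
  · calc bb α β N p φ ψ ≤ P * Q * p := htriv
      _ ≤ (4 * ε) * 1 * p := by
        have h2 : P ≤ 4 * ε := hPT.trans hT
        gcongr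
      _ = _ := by ring
  by_cases hQT : Q ≤ Real.exp (-T)
  · calc bb α β N p φ ψ ≤ P * Q * p := htriv
      _ ≤ 1 * (4 * ε) * p := by
        have h2 : Q ≤ 4 * ε := hQT.trans hT
        gcongr
      _ = _ := by ring
  push Not at hPT hQT
  have hPpos : 0 < P := (Real.exp_pos _).trans hPT
  have hQpos : 0 < Q := (Real.exp_pos _).trans hQT
  set s := -Real.log P with hs
  set t := -Real.log Q with ht
  have hs0 : 0 ≤ s := by
    have := Real.log_nonpos hPpos.le P1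
    linarith
  have ht0 : 0 ≤ t := by
    have := Real.log_nonpos hQpos.le Q1
    linarith
  have hsT : s ≤ T := by
    have := (Real.lt_log_iff_exp_lt hPpos).mpr hPT
    linarith
  have htT : t ≤ T := by
    have := (Real.lt_log_iff_exp_lt hQpos).mpr hQT
    linarith
  have hsP : P * s ≤ 1 := by
    have h2 := Real.one_sub_inv_le_log_of_pos hPpos
    have h3 : P * (1 - P⁻¹) ≤ P * Real.log P := mul_le_mul_of_nonneg_left h2 hPpos.le
    have h4 : P * (1 - P⁻¹) = P - 1 := by field_simp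
    rw [h4] at h3
    rw [hs]
    nlinarith
  have htQ : Q * t ≤ 1 := by
    have h2 := Real.one_sub_inv_le_log_of_pos hQpos
    have h3 : Q * (1 - Q⁻¹) ≤ Q * Real.log Q := mul_le_mul_of_nonneg_left h2 hQpos.le
    have h4 : Q * (1 - Q⁻¹) = Q - 1 := by field_simp
    rw [h4] at h3
    rw [ht]
    nlinarith
  have key := hst (fun x => α x * φ x / P) (fun y => β y * ψ y / Q) s t (cond_pr hα h0 hPpos)
    (cond_pr hβ h0' hQpos) hs0 hsT ht0 htT (cond_le hα h1 hPpos) (cond_le hβ h1' hQpos)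
  have hem : ∑ x, ∑ y, (α x * φ x) * (β y * ψ y) * N x y =
      P * Q * em (fun x => α x * φ x / P) (fun y => β y * ψ y / Q) N := by
    unfold em
    rw [Finset.mul_sum]
    apply Finset.sum_congr rfl
    intro x _
    rw [Finset.mul_sum]
    apply Finset.sum_congr rfl
    intro y _
    field_simp
  rw [hexp, hem]
  have hPQ : 0 < P * Q := mul_pos hPpos hQpos
  have h5 : P * Q * (p * (1 - 2 * ε * (s + t))) ≤
      P * Q * em (fun x => α x * φ x / P) (fun y => β y * ψ y / Q) N :=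
    mul_le_mul_of_nonneg_left key hPQ.le
  have h6 : P * Q * (s + t) ≤ 2 := by
    have h7 : P * Q * s ≤ 1 := by
      calc P * Q * s = (P * s) * Q := by ring
        _ ≤ 1 * 1 := by gcongr
        _ = 1 := one_mul _
    have h8 : P * Q * t ≤ 1 := by
      calc P * Q * t = P * (Q * t) := by ring
        _ ≤ 1 * 1 := by gcongr
        _ = 1 := one_mul _
    linarith [mul_add (P * Q) s t]
  have h9 : 2 * ε * p * (P * Q * (s + t)) ≤ 2 * ε * p * 2 := by gcongr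
  nlinarith

/-- the two-sided cut bound for functions with values in `[0, 1]` -/
theorem cut_lo (hα : IsPr α) (hβ : IsPr β) (hN : ∀ x y, 0 ≤ N x y) (hε : 0 < ε)
    (hT : Real.exp (-T) ≤ 4 * ε) (hst : Stab α β N ε T) {φ : X → ℝ} {ψ : Y → ℝ}
    (h0 : ∀ x, 0 ≤ φ x) (h1 : ∀ x, φ x ≤ 1) (h0' : ∀ y, 0 ≤ ψ y) (h1' : ∀ y, ψ y ≤ 1) :
    -(8 * ε * em α β N) ≤ bb α β N (em α β N) φ ψ := by
  set p := em α β N with hp
  have e1 := bb_comb α β N p (fun _ => 1) φ ψ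
  have e2 := bb_comb' α β N p (fun _ => 1) (fun _ => 1) ψ
  have e3 := bb_one hα hβ N
  rw [← hp] at e3
  have u1 := cut_up hα hβ hN hε hT hst (φ := fun x => 1 - φ x) (ψ := ψ)
    (fun x => by linarith [h1 x]) (fun x => by linarith [h0 x]) h0' h1'
  have u2 := cut_up hα hβ hN hε hT hst (φ := fun _ => 1) (ψ := fun y => 1 - ψ y)
    (fun x => zero_le_one) (fun x => le_rfl) (fun y => by linarith [h1' y])
    (fun y => by linarith [h0' y])
  rw [← hp] at u1 u2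
  linarith

/-- the cut bound for functions with values in `[-1, 1]` -/
theorem cut_abs (hα : IsPr α) (hβ : IsPr β) (hN : ∀ x y, 0 ≤ N x y) (hε : 0 < ε)
    (hT : Real.exp (-T) ≤ 4 * ε) (hst : Stab α β N ε T) {φ : X → ℝ} {ψ : Y → ℝ}
    (h1 : ∀ x, |φ x| ≤ 1) (h1' : ∀ y, |ψ y| ≤ 1) :
    -(24 * ε * em α β N) ≤ bb α β N (em α β N) φ ψ := by
  set p := em α β N with hp
  have hφ : φ = fun x => max (φ x) 0 - max (-φ x) 0 := by
    funext x
    exact (max_zero_sub_eq_self (φ x)).symm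
  have hψ : ψ = fun x => max (ψ x) 0 - max (-ψ x) 0 := by
    funext x
    exact (max_zero_sub_eq_self (ψ x)).symm
  have a0 : ∀ x, 0 ≤ max (φ x) 0 := fun x => le_max_right _ _
  have a1 : ∀ x, max (φ x) 0 ≤ 1 := fun x => max_le (abs_le.mp (h1 x)).2 zero_le_one
  have b0 : ∀ x, 0 ≤ max (-φ x) 0 := fun x => le_max_right _ _
  have b1 : ∀ x, max (-φ x) 0 ≤ 1 := fun x =>
    max_le (by linarith [(abs_le.mp (h1 x)).1]) zero_le_one
  have a0' : ∀ x, 0 ≤ max (ψ x) 0 := fun x => le_max_right _ _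
  have a1' : ∀ x, max (ψ x) 0 ≤ 1 := fun x => max_le (abs_le.mp (h1' x)).2 zero_le_one
  have b0' : ∀ x, 0 ≤ max (-ψ x) 0 := fun x => le_max_right _ _
  have b1' : ∀ x, max (-ψ x) 0 ≤ 1 := fun x =>
    max_le (by linarith [(abs_le.mp (h1' x)).1]) zero_le_one
  rw [hφ, hψ, bb_comb, bb_comb', bb_comb']
  have l1 := cut_lo hα hβ hN hε hT hst a0 a1 a0' a1'
  have l2 := cut_lo hα hβ hN hε hT hst b0 b1 b0' b1'
  have u1 := cut_up hα hβ hN hε hT hst a0 a1 b0' b1'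
  have u2 := cut_up hα hβ hN hε hT hst b0 b1 a0' a1'
  rw [← hp] at l1 l2 u1 u2
  linarith

end Cut

end Amp

end Pool.Agent.LR2
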