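import Pool.Agent.Lib_helper40.LR2.Amp1
import Pool.Agent.Lib_helper40.LR2.Amp2
import Pool.Agent.Lib_helper59.LR2.BLW2

/-!
# The rank bound against a locally stable product state
-/

set_option autoImplicit false
set_option linter.unusedSectionVars false

open Finset Matrix

namespace Pool.Agent.LR2

namespace Amp

open Pool.Agent.LRA

variable {X Y : Type} [Fintype X] [Fintype Y]

/-- expansion of the weighted matrix -/
theorem wexp (N : X → Y → ℝ) (R : ℕ) (hrank : (Matrix.of N).rank ≤ R) (α : X → ℝ) (β : Y → ℝ) :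
    ∃ (n : ℕ) (e : Fin n → X → ℝ) (q : Fin n → Y → ℝ), (∑ x, ∑ k, e k x ^ 2 ≤ R) ∧
      (∀ x y, Real.sqrt (α x) * N x y * Real.sqrt (β y) = ∑ k, q k y * e k x) ∧
      (∀ y, ∑ k, q k y ^ 2 = ∑ x, (Real.sqrt (α x) * N x y * Real.sqrt (β y)) ^ 2) := by
  classical
  set A : Matrix X Y ℝ := Matrix.of fun x y => Real.sqrt (α x) * N x y * Real.sqrt (β y) with hA
  have hArank : A.rank ≤ R := by
    have h1 : A = (Matrix.diagonal fun x => Real.sqrt (α x)) * Matrix.of N *
        (Matrix.diagonal fun y => Real.sqrt (β y)) := by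
      ext x y
      rw [Matrix.mul_diagonal, Matrix.diagonal_mul]
      rfl
    rw [h1]
    calc _ ≤ ((Matrix.diagonal fun x => Real.sqrt (α x)) * Matrix.of N).rank :=
          Matrix.rank_mul_le_left _ _
      _ ≤ (Matrix.of N).rank := Matrix.rank_mul_le_right _ _
      _ ≤ R := hrank
  obtain ⟨n, e, hn, he, hexp⟩ := rank_onb A R hArank
  refine ⟨n, e, fun k y => ∑ x', e k x' * A x' y, ?_, hexp, ?_⟩
  · rw [Finset.sum_comm]
    simp only [he]
    simp
    exact_mod_cast hn
  · intro y
    have h1 : ∀ x, (Real.sqrt (α x) * N x y * Real.sqrt (β y)) ^ 2 =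
        ∑ k, (∑ x', e k x' * A x' y) * (e k x * A x y) := by
      intro x
      calc (Real.sqrt (α x) * N x y * Real.sqrt (β y)) ^ 2 = A x y * A x y := by
            rw [hA]
            simp only [Matrix.of_apply]
            ring
        _ = (∑ k, (∑ x', e k x' * A x' y) * e k x) * A x y := by rw [← hexp x y]
        _ = _ := by
          rw [Finset.sum_mul]
          apply Finset.sum_congr rfl
          intro k _
          ring
    simp only [h1]
    rw [Finset.sum_comm]
    apply Finset.sum_congr rfl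
    intro k _
    rw [← Finset.mul_sum]
    ring

/-- pointwise form of the Cauchy-Schwarz inequality -/
theorem cs_point {a E t : ℝ} (ha : 0 ≤ a) (hE : 0 < E) :
    2 * t * a - t ^ 2 * (Real.sqrt a * Real.sqrt E) ≤ a * (Real.sqrt a / Real.sqrt E) := by
  have hsE : 0 < Real.sqrt E := Real.sqrt_pos.mpr hE
  have hsa : 0 ≤ Real.sqrt a := Real.sqrt_nonneg a
  have h1 : a = Real.sqrt a ^ 2 := (Real.sq_sqrt ha).symm
  have h2 : a * (Real.sqrt a / Real.sqrt E) - (2 * t * a - t ^ 2 * (Real.sqrt a * Real.sqrt E)) =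
      Real.sqrt a / Real.sqrt E * (Real.sqrt a - t * Real.sqrt E) ^ 2 := by
    have h3 : a * (Real.sqrt a / Real.sqrt E) - (2 * t * a - t ^ 2 * (Real.sqrt a * Real.sqrt E)) =
      Real.sqrt a ^ 2 * (Real.sqrt a / Real.sqrt E) -
        (2 * t * Real.sqrt a ^ 2 - t ^ 2 * (Real.sqrt a * Real.sqrt E)) := by
      rw [← h1]
    rw [h3]
    field_simp
    ring
  have h3 : 0 ≤ Real.sqrt a / Real.sqrt E * (Real.sqrt a - t * Real.sqrt E) ^ 2 := by positivity
  linarith

/-- the good rows carry most of the mass -/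
theorem heavy_mass {α : X → ℝ} (hα : IsPr α) {r : X → ℝ} {p δ : ℝ}
    (h : ∑ x, α x * ((if r x ≤ 2 * p then 0 else 1) * (r x - p)) ≤ δ) :
    ∑ x, α x * ((if r x ≤ 2 * p then 0 else 1) * r x) ≤ 2 * δ := by
  have h1 : ∀ x, α x * ((if r x ≤ 2 * p then 0 else 1) * r x) ≤
      2 * (α x * ((if r x ≤ 2 * p then 0 else 1) * (r x - p))) := by
    intro x
    have := hα.nonneg x
    split_ifs with hx
    · simp
    · push Not at hx
      have h2 := mul_le_mul_of_nonneg_left hx.le this
      linarith only [h2]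
  calc _ ≤ ∑ x, 2 * (α x * ((if r x ≤ 2 * p then 0 else 1) * (r x - p))) :=
        Finset.sum_le_sum fun x _ => h1 x
    _ = 2 * ∑ x, α x * ((if r x ≤ 2 * p then 0 else 1) * (r x - p)) := by
        rw [← Finset.mul_sum]
    _ ≤ _ := by linarith


section Main

variable {α : X → ℝ} {β : Y → ℝ} {N : X → Y → ℝ} {ε T : ℝ}

theorem rmean_nonneg' (hβ : IsPr β) (hN : ∀ x y, 0 ≤ N x y) (x : X) : 0 ≤ rmean β N x :=
  Finset.sum_nonneg fun y _ => mul_nonneg (hβ.nonneg y) (hN x y)

theorem cmean_nonneg' (hα : IsPr α) (hN : ∀ x y, 0 ≤ N x y) (y : Y) : 0 ≤ cmean α N y :=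
  Finset.sum_nonneg fun x _ => mul_nonneg (hα.nonneg x) (hN x y)

theorem bb_row (_hα : IsPr α) (hβ : IsPr β) (φ : X → ℝ) :
    bb α β N (em α β N) φ (fun _ => 1) =
      -∑ x, α x * (φ x * (rmean β N x - em α β N)) := by
  rw [bb_expand]
  simp only [mul_one]
  rw [hβ.sum, mul_one, ← Finset.sum_neg_distrib, Finset.sum_mul, ← Finset.sum_sub_distrib]
  apply Finset.sum_congr rfl
  intro x _
  have h1 : ∑ y, α x * φ x * β y * N x y = α x * φ x * rmean β N x := by
    unfold rmean
    rw [Finset.mul_sum]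
    apply Finset.sum_congr rfl
    intro y _
    ring
  rw [h1]
  ring

theorem bb_col (hα : IsPr α) (_hβ : IsPr β) (ψ : Y → ℝ) :
    bb α β N (em α β N) (fun _ => 1) ψ =
      -∑ y, β y * (ψ y * (cmean α N y - em α β N)) := by
  rw [bb_expand]
  simp only [mul_one]
  rw [hα.sum, one_mul, ← Finset.sum_neg_distrib, Finset.sum_mul, Finset.sum_comm,
    ← Finset.sum_sub_distrib]
  apply Finset.sum_congr rfl
  intro y _
  have h1 : ∑ x, α x * (β y * ψ y) * N x y = β y * ψ y * cmean α N y := by
    unfold cmean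
    rw [Finset.mul_sum]
    apply Finset.sum_congr rfl
    intro x _
    ring
  rw [h1]
  ring

/-- the good part of the state carries half of the mass -/
theorem good_mass (hα : IsPr α) (hβ : IsPr β) (hN : ∀ x y, 0 ≤ N x y) (hε : 0 < ε)
    (hε1 : ε ≤ 1 / 64) (hT : Real.exp (-T) ≤ 4 * ε) (hst : Stab α β N ε T) :
    em α β N / 2 ≤ ∑ x, α x * ((if rmean β N x ≤ 2 * em α β N then 1 else 0) *
      ∑ y, β y * ((if cmean α N y ≤ 2 * em α β N then 1 else 0) * N x y)) := by
  set p := em α β N with hp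
  have hp0 : 0 ≤ p := em_nonneg' hα hβ hN
  have w1 : ∑ x, α x * ((if rmean β N x ≤ 2 * p then 0 else 1) * rmean β N x) ≤
      2 * (8 * ε * p) := by
    apply heavy_mass hα
    have h1 := cut_lo hα hβ hN hε hT hst
      (φ := fun x => if rmean β N x ≤ 2 * p then 0 else 1) (ψ := fun _ => 1)
      (fun x => by split_ifs <;> norm_num)
      (fun x => by split_ifs <;> norm_num) (fun _ => zero_le_one) (fun _ => le_rfl)
    rw [bb_row hα hβ] at h1
    rw [← hp] at h1
    linarith
  have w2 : ∑ y, β y * ((if cmean α N y ≤ 2 * p then 0 else 1) * cmean α N y) ≤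
      2 * (8 * ε * p) := by
    apply heavy_mass hβ
    have h1 := cut_lo hα hβ hN hε hT hst (φ := fun _ => 1)
      (ψ := fun y => if cmean α N y ≤ 2 * p then 0 else 1) (fun _ => zero_le_one) (fun _ => le_rfl)
      (fun x => by split_ifs <;> norm_num)
      (fun x => by split_ifs <;> norm_num)
    rw [bb_col hα hβ] at h1
    rw [← hp] at h1
    linarith
  have e1 : ∑ x, α x * ((if rmean β N x ≤ 2 * p then 0 else 1) * rmean β N x) =
      ∑ x, ∑ y, α x * β y * ((if rmean β N x ≤ 2 * p then 0 else 1) * N x y) := by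
    apply Finset.sum_congr rfl
    intro x _
    unfold rmean
    rw [Finset.mul_sum, Finset.mul_sum]
    apply Finset.sum_congr rfl
    intro y _
    ring
  have e2 : ∑ y, β y * ((if cmean α N y ≤ 2 * p then 0 else 1) * cmean α N y) =
      ∑ x, ∑ y, α x * β y * ((if cmean α N y ≤ 2 * p then 0 else 1) * N x y) := by
    rw [Finset.sum_comm]
    apply Finset.sum_congr rfl
    intro y _
    unfold cmean
    rw [Finset.mul_sum, Finset.mul_sum]
    apply Finset.sum_congr rfl
    intro x _
    ring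
  have e3 : ∑ x, α x * ((if rmean β N x ≤ 2 * p then 1 else 0) *
      ∑ y, β y * ((if cmean α N y ≤ 2 * p then 1 else 0) * N x y)) =
      ∑ x, ∑ y, α x * β y * ((if rmean β N x ≤ 2 * p then 1 else 0) *
        (if cmean α N y ≤ 2 * p then 1 else 0) * N x y) := by
    apply Finset.sum_congr rfl
    intro x _
    rw [Finset.mul_sum, Finset.mul_sum]
    apply Finset.sum_congr rfl
    intro y _
    ring
  have key : p - ∑ x, ∑ y, α x * β y * ((if rmean β N x ≤ 2 * p then 0 else 1) * N x y) -
      ∑ x, ∑ y, α x * β y * ((if cmean α N y ≤ 2 * p then 0 else 1) * N x y) ≤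
      ∑ x, ∑ y, α x * β y * ((if rmean β N x ≤ 2 * p then 1 else 0) *
        (if cmean α N y ≤ 2 * p then 1 else 0) * N x y) := by
    have hp' : p = ∑ x, ∑ y, α x * β y * N x y := hp
    have hp2 : ∀ S1 S2 S3 : ℝ, (∑ x, ∑ y, α x * β y * N x y) - S1 - S2 ≤ S3 →
        p - S1 - S2 ≤ S3 := by
      intro S1 S2 S3 h
      rw [hp']
      exact h
    refine hp2 _ _ _ ?_
    simp only [← Finset.sum_sub_distrib]
    apply Finset.sum_le_sum
    intro x _
    apply Finset.sum_le_sum
    intro y _
    have h1 : 0 ≤ α x * β y * N x y :=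
      mul_nonneg (mul_nonneg (hα.nonneg x) (hβ.nonneg y)) (hN x y)
    split_ifs <;> linarith only [h1]
  rw [e3]
  rw [e1] at w1
  rw [e2] at w2
  have h2 := mul_le_mul_of_nonneg_right hε1 hp0
  linarith only [w1, w2, key, h2]


theorem cav_abs_dist {n : ℕ} (F : (Fin n → Bool) → ℝ) (c : ℝ) : c * cav n F = cav n fun ξ => c * F ξ :=
  (cav_smul c F).symm

/-- the upper bound by rounding -/
theorem round_up (hα : IsPr α) (hβ : IsPr β) (hN : ∀ x y, 0 ≤ N x y) (hε : 0 < ε)
    (hT : Real.exp (-T) ≤ 4 * ε) (hst : Stab α β N ε T) {n : ℕ} {u : X → Fin n → ℝ}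
    {v : Y → Fin n → ℝ} (hu : ∀ x, ∑ k, u x k ^ 2 ≤ 1) (hv : ∀ y, ∑ k, v y k ^ 2 ≤ 1) {L : ℝ}
    (hL : 2 ≤ L) :
    ∑ x, ∑ y, α x * β y * ((N x y - em α β N) * ∑ k, u x k * v y k) ≤
      4 * em α β N * Real.exp (-(L ^ 2 / 4)) + 24 * L ^ 2 * ε * em α β N := by
  set p := em α β N with hp
  have hp0 : 0 ≤ p := em_nonneg' hα hβ hN
  have hL0 : (0 : ℝ) ≤ L := by linarith
  set E0 := Real.exp (-(L ^ 2 / 4)) with hE0
  have hE0' : 0 ≤ E0 := (Real.exp_pos _).le
  set G : X → Y → ℝ := fun x y => cav n fun ξ => clip L (lin (u x) ξ) * clip L (lin (v y) ξ) with hG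
  have h1 : ∀ x y, α x * β y * ((N x y - p) * ∑ k, u x k * v y k) ≤
      α x * β y * ((N x y - p) * G x y) + (2 * E0) * (α x * β y * N x y) +
        (2 * E0 * p) * (α x * β y) := by
    intro x y
    have h2 := round_err (hu x) (hv y) hL
    rw [abs_le] at h2
    have h3 : (N x y - p) * (∑ k, u x k * v y k - G x y) ≤ (N x y + p) * (2 * E0) := by
      rw [← abs_le] at h2
      calc (N x y - p) * (∑ k, u x k * v y k - G x y) ≤
            |(N x y - p) * (∑ k, u x k * v y k - G x y)| := le_abs_self _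
        _ = |N x y - p| * |∑ k, u x k * v y k - G x y| := abs_mul _ _
        _ ≤ (N x y + p) * (2 * E0) := by
            apply mul_le_mul _ h2 (abs_nonneg _) (by have := hN x y; linarith)
            rw [abs_le]
            have := hN x y
            constructor <;> linarith
    have h4 : 0 ≤ α x * β y := mul_nonneg (hα.nonneg x) (hβ.nonneg y)
    have h5 := mul_le_mul_of_nonneg_left h3 h4
    linarith only [h5]
  have h2 : ∑ x, ∑ y, α x * β y * ((N x y - p) * G x y) ≤ 24 * L ^ 2 * ε * p := by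
    have h3 : ∑ x, ∑ y, α x * β y * ((N x y - p) * G x y) =
        cav n fun ξ => L ^ 2 * -bb α β N p (fun x => clip L (lin (u x) ξ) / L)
          (fun y => clip L (lin (v y) ξ) / L) := by
      have h4 : ∀ ξ : Fin n → Bool, L ^ 2 * -bb α β N p (fun x => clip L (lin (u x) ξ) / L)
          (fun y => clip L (lin (v y) ξ) / L) = ∑ x, ∑ y, (α x * β y * (N x y - p)) *
            (clip L (lin (u x) ξ) * clip L (lin (v y) ξ)) := by
        intro ξ
        unfold bb
        rw [← Finset.sum_neg_distrib, Finset.mul_sum]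
        apply Finset.sum_congr rfl
        intro x _
        rw [← Finset.sum_neg_distrib, Finset.mul_sum]
        apply Finset.sum_congr rfl
        intro y _
        have : L ≠ 0 := by linarith
        field_simp
        ring
      simp only [h4]
      rw [cav_sum]
      apply Finset.sum_congr rfl
      intro x _
      rw [cav_sum]
      apply Finset.sum_congr rfl
      intro y _
      rw [cav_smul]
      ring
    rw [h3]
    have hLpos : 0 < L := by linarith
    calc _ ≤ cav n fun _ => 24 * L ^ 2 * ε * p := by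
          apply cav_mono
          intro ξ
          have h5 := cut_abs hα hβ hN hε hT hst (φ := fun x => clip L (lin (u x) ξ) / L)
            (ψ := fun y => clip L (lin (v y) ξ) / L)
            (fun x => by
              rw [abs_div, abs_of_pos hLpos, div_le_one hLpos]
              exact clip_abs_le hL0 _)
            (fun y => by
              rw [abs_div, abs_of_pos hLpos, div_le_one hLpos]
              exact clip_abs_le hL0 _)
          rw [← hp] at h5
          have h6 : 0 < L ^ 2 := by positivity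
          have h7 := mul_le_mul_of_nonneg_left h5 h6.le
          linarith only [h7]
      _ = _ := cav_const n _
  calc ∑ x, ∑ y, α x * β y * ((N x y - p) * ∑ k, u x k * v y k)
      ≤ ∑ x, ∑ y, (α x * β y * ((N x y - p) * G x y) + (2 * E0) * (α x * β y * N x y) +
        (2 * E0 * p) * (α x * β y)) :=
        Finset.sum_le_sum fun x _ => Finset.sum_le_sum fun y _ => h1 x y
    _ = ∑ x, ∑ y, α x * β y * ((N x y - p) * G x y) + (2 * E0) * p + (2 * E0 * p) * 1 := by
        simp only [Finset.sum_add_distrib]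
        congr 1
        · congr 1
          rw [hp]
          unfold em
          rw [Finset.mul_sum]
          apply Finset.sum_congr rfl
          intro x _
          rw [Finset.mul_sum]
        · have h5 : ∑ x, ∑ y, α x * β y = 1 := by
            rw [← Finset.sum_mul_sum, hα.sum, hβ.sum, one_mul]
          rw [← h5, Finset.mul_sum]
          apply Finset.sum_congr rfl
          intro x _
          rw [Finset.mul_sum]
    _ ≤ _ := by linarith only [h2]

theorem sum_sqrt_le (hα : IsPr α) {E : X → ℝ} (hE : ∀ x, 0 ≤ E x) {R : ℝ} (hR : 1 ≤ R)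
    (hER : ∑ x, E x ≤ R) : ∑ x, Real.sqrt (α x) * Real.sqrt (E x) ≤ Real.sqrt R := by
  have hR0 : 0 < Real.sqrt R := Real.sqrt_pos.mpr (by linarith)
  have hRsq : Real.sqrt R ^ 2 = R := Real.sq_sqrt (by linarith)
  have h1 : ∀ x, Real.sqrt (α x) * Real.sqrt (E x) ≤
      Real.sqrt R / 2 * α x + (2 * Real.sqrt R)⁻¹ * E x := by
    intro x
    have h2 : α x = Real.sqrt (α x) ^ 2 := (Real.sq_sqrt (hα.nonneg x)).symm
    have h3 : E x = Real.sqrt (E x) ^ 2 := (Real.sq_sqrt (hE x)).symm
    have h4 : 0 ≤ (2 * Real.sqrt R)⁻¹ * (Real.sqrt R * Real.sqrt (α x) - Real.sqrt (E x)) ^ 2 := by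
      positivity
    have h5 : (2 * Real.sqrt R)⁻¹ * (Real.sqrt R * Real.sqrt (α x) - Real.sqrt (E x)) ^ 2 =
        Real.sqrt R / 2 * Real.sqrt (α x) ^ 2 + (2 * Real.sqrt R)⁻¹ * Real.sqrt (E x) ^ 2 -
          Real.sqrt (α x) * Real.sqrt (E x) := by
      field_simp
      ring
    rw [h5, ← h2, ← h3] at h4
    linarith
  calc ∑ x, Real.sqrt (α x) * Real.sqrt (E x) ≤
        ∑ x, (Real.sqrt R / 2 * α x + (2 * Real.sqrt R)⁻¹ * E x) :=
        Finset.sum_le_sum fun x _ => h1 x
    _ = Real.sqrt R / 2 * 1 + (2 * Real.sqrt R)⁻¹ * ∑ x, E x := by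
        rw [Finset.sum_add_distrib, ← Finset.mul_sum, ← Finset.mul_sum, hα.sum]
    _ ≤ Real.sqrt R / 2 * 1 + (2 * Real.sqrt R)⁻¹ * R := by
        gcongr
    _ = Real.sqrt R := by
        rw [← hRsq]
        rw [Real.sqrt_sq hR0.le]
        field_simp
        ring

/-- a locally stable state of a Boolean matrix of rank at most `R`: the slope is at least
`1 / (√(R p) log R)` -/
theorem stab_rank (hα : IsPr α) (hβ : IsPr β) (hN : ∀ x y, N x y = 0 ∨ N x y = 1) {R : ℕ}
    (hR : 1 ≤ R) (hrank : (Matrix.of N).rank ≤ R) (hε : 0 < ε)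
    (hε1 : ε ≤ 1 / 64) (hT : Real.exp (-T) ≤ 4 * ε) (hst : Stab α β N ε T)
    (hp0 : 0 < em α β N) {L : ℝ} (hL : 2 ≤ L) :
    (1 - em α β N) / (8 * (Real.sqrt (2 * em α β N) * Real.sqrt R)) ≤
      4 * Real.exp (-(L ^ 2 / 4)) + 24 * L ^ 2 * ε := by
  set p := em α β N with hp
  have hN0 : ∀ x y, 0 ≤ N x y := by
    intro x y
    rcases hN x y with h | h <;> rw [h] <;> norm_num
  have hN1 : ∀ x y, N x y ≤ 1 := by
    intro x y
    rcases hN x y with h | h <;> rw [h] <;> norm_num
  have hNN : ∀ x y, N x y ^ 2 = N x y := by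
    intro x y
    rcases hN x y with h | h <;> rw [h] <;> norm_num
  have hp1 : p ≤ 1 := by
    have h1 : em α β N ≤ em α β fun _ _ => 1 := em_mono hα hβ fun x y => hN1 x y
    rw [em_const hα hβ] at h1
    exact h1
  obtain ⟨n, e, q, he, hexp, hq⟩ := wexp N R hrank α β
  have hR1 : (1 : ℝ) ≤ R := by exact_mod_cast hR
  have hsR : 0 < Real.sqrt R := Real.sqrt_pos.mpr (by linarith)
  have hsRsq : Real.sqrt R ^ 2 = R := Real.sq_sqrt (by linarith)
  set E : X → ℝ := fun x => ∑ k, e k x ^ 2 with hE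
  have hE0 : ∀ x, 0 ≤ E x := fun x => Finset.sum_nonneg fun k _ => sq_nonneg _
  set gx : X → ℝ := fun x => if rmean β N x ≤ 2 * p then 1 else 0 with hgx
  set gy : Y → ℝ := fun y => if cmean α N y ≤ 2 * p then 1 else 0 with hgy
  have gx0 : ∀ x, 0 ≤ gx x := by intro x; simp only [hgx]; split_ifs <;> norm_num
  have gx1 : ∀ x, gx x ≤ 1 := by intro x; simp only [hgx]; split_ifs <;> norm_num
  have gy0 : ∀ y, 0 ≤ gy y := by intro x; simp only [hgy]; split_ifs <;> norm_num
  have gy1 : ∀ y, gy y ≤ 1 := by intro x; simp only [hgy]; split_ifs <;> norm_num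
  set u : X → Fin n → ℝ := fun x k => gx x * (e k x / Real.sqrt (E x)) with hu
  set v : Y → Fin n → ℝ := fun y k => gy y * (q k y / (Real.sqrt (2 * p) * Real.sqrt (β y)))
    with hv
  have hs2p : 0 < Real.sqrt (2 * p) := Real.sqrt_pos.mpr (by linarith)
  have hu1 : ∀ x, ∑ k, u x k ^ 2 ≤ 1 := by
    intro x
    have h1 : ∑ k, u x k ^ 2 = gx x ^ 2 * (E x / Real.sqrt (E x) ^ 2) := by
      simp only [hu, hE]
      rw [Finset.sum_div, Finset.mul_sum]
      apply Finset.sum_congr rfl
      intro k _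
      rw [mul_pow, div_pow]
    rw [h1, Real.sq_sqrt (hE0 x)]
    have h2 : gx x ^ 2 ≤ 1 := pow_le_one₀ (gx0 x) (gx1 x)
    have h3 : E x / E x ≤ 1 := div_self_le_one _
    have h4 : 0 ≤ E x / E x := div_nonneg (hE0 x) (hE0 x)
    calc gx x ^ 2 * (E x / E x) ≤ 1 * 1 := by gcongr
      _ = 1 := one_mul 1
  have hqs : ∀ y, ∑ k, q k y ^ 2 = β y * cmean α N y := by
    intro y
    rw [hq y]
    unfold cmean
    rw [Finset.mul_sum]
    apply Finset.sum_congr rfl
    intro x _
    rw [mul_pow, mul_pow, Real.sq_sqrt (hα.nonneg x), Real.sq_sqrt (hβ.nonneg y), hNN]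
    ring
  have hv1 : ∀ y, ∑ k, v y k ^ 2 ≤ 1 := by
    intro y
    have h1 : ∑ k, v y k ^ 2 = gy y ^ 2 * ((β y * cmean α N y) / (2 * p * β y)) := by
      rw [← hqs y, Finset.sum_div, Finset.mul_sum]
      apply Finset.sum_congr rfl
      intro k _
      simp only [hv]
      rw [mul_pow, div_pow, mul_pow, Real.sq_sqrt (by linarith), Real.sq_sqrt (hβ.nonneg y)]
    rw [h1]
    have hc0 := cmean_nonneg' hα hN0 y
    rcases eq_or_ne (β y) 0 with hb | hb
    · rw [hb]
      simp
    have hb' : 0 < β y := lt_of_le_of_ne (hβ.nonneg y) (Ne.symm hb)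
    by_cases hg : cmean α N y ≤ 2 * p
    · have h2 : (β y * cmean α N y) / (2 * p * β y) ≤ 1 := by
        rw [div_le_one (by positivity)]
        have h3 := mul_le_mul_of_nonneg_left hg hb'.le
        linarith only [h3]
      have h3 : 0 ≤ (β y * cmean α N y) / (2 * p * β y) := by positivity
      have h4 : gy y ^ 2 ≤ 1 := pow_le_one₀ (gy0 y) (gy1 y)
      calc _ ≤ (1 : ℝ) * 1 := by gcongr
        _ = 1 := one_mul 1
    · have h2 : gy y = 0 := by simp only [hgy]; rw [if_neg hg]
      rw [h2]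
      simp
  have hup := round_up hα hβ hN0 hε hT hst hu1 hv1 hL
  rw [← hp] at hup
  set g : X → ℝ := fun x => ∑ y, β y * (gy y * N x y) with hg
  have hg0 : ∀ x, 0 ≤ g x := fun x => Finset.sum_nonneg fun y _ =>
    mul_nonneg (hβ.nonneg y) (mul_nonneg (gy0 y) (hN0 x y))
  have hgr : ∀ x, g x ≤ rmean β N x := fun x => Finset.sum_le_sum fun y _ =>
    mul_le_mul_of_nonneg_left (mul_le_of_le_one_left (hN0 x y) (gy1 y)) (hβ.nonneg y)
  have hgg : ∀ x, gx x * g x ≤ 2 * p := by
    intro x
    by_cases h1 : rmean β N x ≤ 2 * p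
    · have h2 : gx x = 1 := by simp only [hgx]; rw [if_pos h1]
      rw [h2, one_mul]
      exact (hgr x).trans h1
    · have h2 : gx x = 0 := by simp only [hgx]; rw [if_neg h1]
      rw [h2, zero_mul]
      linarith
  -- the identity for the pairing
  have hid : ∑ x, ∑ y, α x * β y * ((N x y - p) * ∑ k, u x k * v y k) =
      (1 - p) / Real.sqrt (2 * p) *
        ∑ x, (gx x * g x) * (α x * (Real.sqrt (α x) / Real.sqrt (E x))) := by
    rw [Finset.mul_sum]
    apply Finset.sum_congr rfl
    intro x _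
    have h1 : ∀ y, α x * β y * ((N x y - p) * ∑ k, u x k * v y k) =
        ((1 - p) / Real.sqrt (2 * p) * gx x * (α x * (Real.sqrt (α x) / Real.sqrt (E x)))) *
          (β y * (gy y * N x y)) := by
      intro y
      rcases eq_or_ne (β y) 0 with hb | hb
      · rw [hb]
        ring
      have hb' : 0 < Real.sqrt (β y) :=
        Real.sqrt_pos.mpr (lt_of_le_of_ne (hβ.nonneg y) (Ne.symm hb))
      have h2 : ∑ k, u x k * v y k = gx x * gy y / (Real.sqrt (E x) * (Real.sqrt (2 * p) *
          Real.sqrt (β y))) * (Real.sqrt (α x) * N x y * Real.sqrt (β y)) := by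
        rw [hexp x y, Finset.mul_sum]
        apply Finset.sum_congr rfl
        intro k _
        simp only [hu, hv]
        rw [div_eq_mul_inv, div_eq_mul_inv, div_eq_mul_inv, mul_inv]
        ring
      have h3 : (N x y - p) * N x y = (1 - p) * N x y := by
        have := hNN x y
        linear_combination this
      rw [h2]
      have h4 : α x * β y * ((N x y - p) * (gx x * gy y / (Real.sqrt (E x) * (Real.sqrt (2 * p) *
          Real.sqrt (β y))) * (Real.sqrt (α x) * N x y * Real.sqrt (β y)))) =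
          α x * β y * (((N x y - p) * N x y) * (gx x * gy y / (Real.sqrt (E x) *
            (Real.sqrt (2 * p) * Real.sqrt (β y))) * (Real.sqrt (α x) * Real.sqrt (β y)))) := by
        ring
      rw [h4, h3]
      have h5 : Real.sqrt (E x) * (Real.sqrt (2 * p) * Real.sqrt (β y)) =
          Real.sqrt (β y) * (Real.sqrt (E x) * Real.sqrt (2 * p)) := by ring
      rw [h5, div_eq_mul_inv, mul_inv, mul_inv]
      have h6 : Real.sqrt (β y) * (Real.sqrt (β y))⁻¹ = 1 := mul_inv_cancel₀ hb'.ne'
      rw [div_eq_mul_inv, div_eq_mul_inv]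
      linear_combination (α x * β y * ((1 - p) * N x y) * (gx x * gy y) * ((Real.sqrt (E x))⁻¹ *
        (Real.sqrt (2 * p))⁻¹) * Real.sqrt (α x)) * h6
    simp only [h1]
    rw [← Finset.mul_sum]
    simp only [hg]
    ring
  -- the lower bound
  have hW := good_mass hα hβ hN0 hε hε1 hT hst
  rw [← hp] at hW
  have hW' : p / 2 ≤ ∑ x, (gx x * g x) * α x := by
    refine hW.trans (le_of_eq ?_)
    apply Finset.sum_congr rfl
    intro x _
    simp only [hg, hgx, hgy]
    ring
  have hlow : p / (8 * Real.sqrt R) ≤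
      ∑ x, (gx x * g x) * (α x * (Real.sqrt (α x) / Real.sqrt (E x))) := by
    set t : ℝ := (4 * Real.sqrt R)⁻¹ with ht
    have ht0 : 0 < t := by positivity
    have h1 : ∀ x, 2 * t * ((gx x * g x) * α x) -
        t ^ 2 * (2 * p) * (Real.sqrt (α x) * Real.sqrt (E x)) ≤
        (gx x * g x) * (α x * (Real.sqrt (α x) / Real.sqrt (E x))) := by
      intro x
      rcases (hE0 x).eq_or_lt with h2 | h2
      · have h3 : ∀ k, e k x = 0 := by
          intro k
          have h4 : ∑ k, e k x ^ 2 = 0 := h2.symm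
          rw [Finset.sum_eq_zero_iff_of_nonneg (fun k _ => sq_nonneg _)] at h4
          exact pow_eq_zero_iff (two_ne_zero) |>.mp (h4 k (Finset.mem_univ k))
        have h5 : α x * g x = 0 := by
          simp only [hg]
          rw [Finset.mul_sum]
          apply Finset.sum_eq_zero
          intro y _
          have h6 := hexp x y
          simp only [h3, mul_zero, Finset.sum_const_zero] at h6
          have h7 : α x * (β y * (gy y * N x y)) = gy y * Real.sqrt (α x) * Real.sqrt (β y) *
              (Real.sqrt (α x) * N x y * Real.sqrt (β y)) := by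
            have e1 : α x = Real.sqrt (α x) * Real.sqrt (α x) :=
              (Real.mul_self_sqrt (hα.nonneg x)).symm
            have e2 : β y = Real.sqrt (β y) * Real.sqrt (β y) :=
              (Real.mul_self_sqrt (hβ.nonneg y)).symm
            calc α x * (β y * (gy y * N x y)) = (Real.sqrt (α x) * Real.sqrt (α x)) *
                  ((Real.sqrt (β y) * Real.sqrt (β y)) * (gy y * N x y)) := by
                  rw [← e1, ← e2]
              _ = _ := by ring
          rw [h7, h6, mul_zero]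
        have h8 : (gx x * g x) * α x = 0 := by
          rw [mul_assoc, mul_comm (g x), h5, mul_zero]
        have h9 : Real.sqrt (E x) = 0 := by rw [← h2, Real.sqrt_zero]
        rw [h8, h9]
        simp
      · have h3 := cs_point (t := t) (hα.nonneg x) h2
        have h4 : 0 ≤ gx x * g x := mul_nonneg (gx0 x) (hg0 x)
        have h5 := mul_le_mul_of_nonneg_left h3 h4
        have h6 : 0 ≤ t ^ 2 * (Real.sqrt (α x) * Real.sqrt (E x)) := by positivity
        have h7 := mul_le_mul_of_nonneg_right (hgg x) h6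
        linarith only [h5, h7]
    have h2 := sum_sqrt_le hα hE0 hR1 (by
      have h3 : ∑ x, E x = ∑ x, ∑ k, e k x ^ 2 := rfl
      rw [h3]
      exact he)
    calc p / (8 * Real.sqrt R) ≤ 2 * t * ∑ x, (gx x * g x) * α x -
          t ^ 2 * (2 * p) * ∑ x, Real.sqrt (α x) * Real.sqrt (E x) := by
          have h3 : 2 * t * (p / 2) ≤ 2 * t * ∑ x, (gx x * g x) * α x := by gcongr
          have h4 : t ^ 2 * (2 * p) * ∑ x, Real.sqrt (α x) * Real.sqrt (E x) ≤
              t ^ 2 * (2 * p) * Real.sqrt R := by gcongr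
          have h5 : 2 * t * (p / 2) - t ^ 2 * (2 * p) * Real.sqrt R = p / (8 * Real.sqrt R) := by
            rw [ht]
            field_simp
            ring
          linarith
      _ = ∑ x, (2 * t * ((gx x * g x) * α x) -
          t ^ 2 * (2 * p) * (Real.sqrt (α x) * Real.sqrt (E x))) := by
          rw [Finset.sum_sub_distrib, ← Finset.mul_sum, ← Finset.mul_sum]
      _ ≤ _ := Finset.sum_le_sum fun x _ => h1 x
  rw [hid] at hup
  have h1 : (1 - p) / Real.sqrt (2 * p) * (p / (8 * Real.sqrt R)) ≤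
      4 * p * Real.exp (-(L ^ 2 / 4)) + 24 * L ^ 2 * ε * p := by
    refine le_trans ?_ hup
    apply mul_le_mul_of_nonneg_left hlow
    exact div_nonneg (by linarith) hs2p.le
  have h2 : (1 - p) / Real.sqrt (2 * p) * (p / (8 * Real.sqrt R)) =
      p * ((1 - p) / (8 * (Real.sqrt (2 * p) * Real.sqrt R))) := by
    field_simp
  have h3 : 4 * p * Real.exp (-(L ^ 2 / 4)) + 24 * L ^ 2 * ε * p =
      p * (4 * Real.exp (-(L ^ 2 / 4)) + 24 * L ^ 2 * ε) := by ring
  rw [h2, h3] at h1
  exact le_of_mul_le_mul_left h1 hp0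

end Main

end Amp

end Pool.Agent.LR2
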