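import Pool.Agent.Lib_helper40.LR2.Amp3
import Pool.Agent.Lib_helper59.LR2.State

/-!
# Amplification: cheap product states of a Boolean matrix of small rank
-/

set_option autoImplicit false
set_option linter.unusedSectionVars false

open Finset Matrix

namespace Pool.Agent.LR2

namespace Amp

variable {X Y : Type} [Fintype X] [Fintype Y] [Nonempty X] [Nonempty Y]

/-- the capped set of product states -/
def cset (μ₀ : X → ℝ) (ν₀ : Y → ℝ) (c : ℝ) : Set ((X → ℝ) × (Y → ℝ)) :=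
  {P | (P.1 ∈ stdSimplex ℝ X ∧ P.2 ∈ stdSimplex ℝ Y) ∧ DD μ₀ P.1 + DD ν₀ P.2 ≤ c}

theorem isPr_of_mem {X : Type} [Fintype X] {p : X → ℝ} (h : p ∈ stdSimplex ℝ X) : IsPr p :=
  ⟨h.1, h.2⟩

theorem continuous_mx' {X : Type} [Fintype X] [Nonempty X] (μ₀ : X → ℝ) :
    Continuous fun s : X → ℝ => mx fun x => s x / μ₀ x := by
  unfold mx
  apply Continuous.finset_sup'_apply
  intro x _
  fun_prop

theorem continuousOn_DD {X : Type} [Fintype X] [Nonempty X] {μ₀ : X → ℝ} (hμ : IsPos μ₀) :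
    ContinuousOn (fun s : X → ℝ => DD μ₀ s) (stdSimplex ℝ X) := by
  unfold DD
  apply ContinuousOn.log (continuous_mx' μ₀).continuousOn
  intro s hs
  have := one_le_mx hμ (isPr_of_mem hs)
  linarith

theorem isCompact_cset {μ₀ : X → ℝ} {ν₀ : Y → ℝ} (hμ : IsPos μ₀) (hν : IsPos ν₀) (c : ℝ) :
    IsCompact (cset μ₀ ν₀ c) := by
  have h1 : IsCompact ((stdSimplex ℝ X) ×ˢ (stdSimplex ℝ Y)) :=
    (isCompact_stdSimplex ℝ X).prod (isCompact_stdSimplex ℝ Y)
  have h2 : ContinuousOn (fun P : (X → ℝ) × (Y → ℝ) => DD μ₀ P.1 + DD ν₀ P.2)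
      ((stdSimplex ℝ X) ×ˢ (stdSimplex ℝ Y)) := by
    apply ContinuousOn.add
    · exact (continuousOn_DD hμ).comp continuous_fst.continuousOn fun P hP => hP.1
    · exact (continuousOn_DD hν).comp continuous_snd.continuousOn fun P hP => hP.2
  have h3 : IsCompact (((stdSimplex ℝ X) ×ˢ (stdSimplex ℝ Y)) ∩
      (fun P : (X → ℝ) × (Y → ℝ) => DD μ₀ P.1 + DD ν₀ P.2) ⁻¹' Set.Iic c) := by
    have h4 := h2.preimage_isClosed_of_isClosed h1.isClosed (isClosed_Iic (a := c))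
    exact h1.of_isClosed_subset h4 Set.inter_subset_left
  exact h3

/-- the functional -/
noncomputable def Gf (N : X → Y → ℝ) (μ₀ : X → ℝ) (ν₀ : Y → ℝ) (ε τ : ℝ)
    (P : (X → ℝ) × (Y → ℝ)) : ℝ :=
  -Real.log (em P.1 P.2 N + τ) - ε * (DD μ₀ P.1 + DD ν₀ P.2)

theorem continuousOn_Gf {N : X → Y → ℝ} (hN : ∀ x y, 0 ≤ N x y) {μ₀ : X → ℝ} {ν₀ : Y → ℝ}
    (hμ : IsPos μ₀) (hν : IsPos ν₀) (ε : ℝ) {τ : ℝ} (hτ : 0 < τ) (c : ℝ) :
    ContinuousOn (Gf N μ₀ ν₀ ε τ) (cset μ₀ ν₀ c) := by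
  unfold Gf
  apply ContinuousOn.sub
  · apply ContinuousOn.neg
    apply ContinuousOn.log
    · apply Continuous.continuousOn
      unfold em
      fun_prop
    · intro P hP
      have h1 := em_nonneg' (isPr_of_mem hP.1.1) (isPr_of_mem hP.1.2) hN
      linarith
  · apply continuousOn_const.mul
    apply ContinuousOn.add
    · exact (continuousOn_DD hμ).comp continuous_fst.continuousOn fun P hP => hP.1.1
    · exact (continuousOn_DD hν).comp continuous_snd.continuousOn fun P hP => hP.1.2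

theorem DD_self {X : Type} [Fintype X] [Nonempty X] {μ₀ : X → ℝ} (hμ : IsPos μ₀) :
    DD μ₀ μ₀ = 0 := by
  unfold DD
  have h1 : (mx fun x => μ₀ x / μ₀ x) = 1 := by
    apply le_antisymm
    · apply mx_le
      intro x
      rw [div_self (hμ.pos x).ne']
    · obtain ⟨x⟩ := ‹Nonempty X›
      have h2 := le_mx (fun x => μ₀ x / μ₀ x) x
      rw [div_self (hμ.pos x).ne'] at h2
      exact h2
  rw [h1, Real.log_one]

/-- the capped maximiser: either the cap is nearly reached, and the mean has decreased, or the state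
is locally stable -/
theorem exists_max {N : X → Y → ℝ} (hN : ∀ x y, 0 ≤ N x y) {μ₀ : X → ℝ} {ν₀ : Y → ℝ}
    (hμ : IsPos μ₀) (hν : IsPos ν₀) {ε τ T c : ℝ} (hε : 0 < ε) (hτ : 0 < τ) (hc : 0 ≤ c) :
    ∃ (α : X → ℝ) (β : Y → ℝ), IsPr α ∧ IsPr β ∧ DD μ₀ α + DD ν₀ β ≤ c ∧
      em α β N ≤ em μ₀ ν₀ N ∧
      (em α β N ≤ τ ∨
        em α β N + τ ≤ (em μ₀ ν₀ N + τ) * Real.exp (-(ε * (c - 2 * T))) ∨ Stab α β N ε T) := by
  have hμp : IsPr μ₀ := ⟨fun x => (hμ.pos x).le, hμ.sum⟩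
  have hνp : IsPr ν₀ := ⟨fun x => (hν.pos x).le, hν.sum⟩
  have h0 : (μ₀, ν₀) ∈ cset μ₀ ν₀ c := by
    refine ⟨⟨⟨hμp.nonneg, hμp.sum⟩, ⟨hνp.nonneg, hνp.sum⟩⟩, ?_⟩
    show DD μ₀ μ₀ + DD ν₀ ν₀ ≤ c
    rw [DD_self hμ, DD_self hν]
    linarith
  obtain ⟨P, hP, hmax⟩ := (isCompact_cset hμ hν c).exists_isMaxOn ⟨_, h0⟩
    (continuousOn_Gf hN hμ hν ε hτ c)
  obtain ⟨α, β⟩ := P
  have hα : IsPr α := isPr_of_mem hP.1.1
  have hβ : IsPr β := isPr_of_mem hP.1.2
  have hcost : DD μ₀ α + DD ν₀ β ≤ c := hP.2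
  have hp0 : 0 ≤ em α β N := em_nonneg' hα hβ hN
  have hq0 : 0 ≤ em μ₀ ν₀ N := em_nonneg' hμp hνp hN
  have hcost0 : 0 ≤ DD μ₀ α + DD ν₀ β := add_nonneg (DD_nonneg hμ hα) (DD_nonneg hν hβ)
  have hG0 : -Real.log (em μ₀ ν₀ N + τ) ≤
      -Real.log (em α β N + τ) - ε * (DD μ₀ α + DD ν₀ β) := by
    have h1 := hmax h0
    simp only [Set.mem_ofPred_eq] at h1
    unfold Gf at h1
    simp only at h1
    rw [DD_self hμ, DD_self hν, add_zero, mul_zero, sub_zero] at h1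
    exact h1
  have hlog : Real.log (em α β N + τ) ≤
      Real.log (em μ₀ ν₀ N + τ) + -(ε * (DD μ₀ α + DD ν₀ β)) := by linarith
  have hle : em α β N + τ ≤ (em μ₀ ν₀ N + τ) * Real.exp (-(ε * (DD μ₀ α + DD ν₀ β))) := by
    have h1 := Real.exp_le_exp.mpr hlog
    rw [Real.exp_log (by linarith), Real.exp_add, Real.exp_log (by linarith)] at h1
    exact h1
  refine ⟨α, β, hα, hβ, hcost, ?_, ?_⟩
  · have h1 : Real.exp (-(ε * (DD μ₀ α + DD ν₀ β))) ≤ 1 := by
      rw [Real.exp_le_one_iff]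
      have := mul_nonneg hε.le hcost0
      linarith
    have h2 : (em μ₀ ν₀ N + τ) * Real.exp (-(ε * (DD μ₀ α + DD ν₀ β))) ≤
        (em μ₀ ν₀ N + τ) * 1 := mul_le_mul_of_nonneg_left h1 (by linarith)
    linarith
  by_cases hpτ : em α β N ≤ τ
  · exact Or.inl hpτ
  right
  push Not at hpτ
  by_cases hcap : c - 2 * T ≤ DD μ₀ α + DD ν₀ β
  · left
    refine hle.trans (mul_le_mul_of_nonneg_left (Real.exp_le_exp.mpr ?_) (by linarith))
    have := mul_le_mul_of_nonneg_left hcap hε.le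
    linarith
  right
  push Not at hcap
  intro α' β' s t hα' hβ' hs hsT ht htT h1 h2
  have d1 := DD_le hμ hα hα' h1
  have d2 := DD_le hν hβ hβ' h2
  have hmem : (α', β') ∈ cset μ₀ ν₀ c := by
    refine ⟨⟨⟨hα'.nonneg, hα'.sum⟩, ⟨hβ'.nonneg, hβ'.sum⟩⟩, ?_⟩
    show DD μ₀ α' + DD ν₀ β' ≤ c
    linarith
  have h3 := hmax hmem
  simp only [Set.mem_ofPred_eq] at h3
  unfold Gf at h3
  simp only at h3
  have hp' : 0 ≤ em α' β' N := em_nonneg' hα' hβ' hN
  have h4 : Real.log (em α β N + τ) + -(ε * (s + t)) ≤ Real.log (em α' β' N + τ) := by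
    have h5 : ε * (DD μ₀ α' + DD ν₀ β') ≤ ε * (DD μ₀ α + DD ν₀ β) + ε * (s + t) := by
      rw [← mul_add]
      apply mul_le_mul_of_nonneg_left _ hε.le
      linarith
    linarith
  have h5 := Real.exp_le_exp.mpr h4
  rw [Real.exp_add, Real.exp_log (by linarith), Real.exp_log (by linarith)] at h5
  have h6 : 1 - ε * (s + t) ≤ Real.exp (-(ε * (s + t))) := by
    have := Real.add_one_le_exp (-(ε * (s + t)))
    linarith
  have h7 : (em α β N + τ) * (1 - ε * (s + t)) ≤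
      (em α β N + τ) * Real.exp (-(ε * (s + t))) := mul_le_mul_of_nonneg_left h6 (by linarith)
  have h8 : 0 ≤ ε * (s + t) := mul_nonneg hε.le (by linarith)
  have h9 : τ * (ε * (s + t)) ≤ em α β N * (ε * (s + t)) :=
    mul_le_mul_of_nonneg_right hpτ.le h8
  linarith only [h5, h7, h9]

/-- the slope of the amplification -/
noncomputable def slope (R : ℕ) (p₁ : ℝ) : ℝ :=
  1 / (1200 * (24 + 2 * Real.log R) * Real.sqrt (R * p₁))

theorem slope_pos {R : ℕ} {p₁ : ℝ} (hR : 1 ≤ R * p₁) : 0 < slope R p₁ := by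
  unfold slope
  have h1 : 0 ≤ Real.log R := Real.log_natCast_nonneg R
  have h2 : 0 < Real.sqrt (R * p₁) := Real.sqrt_pos.mpr (by linarith)
  positivity

/-- **Amplification.** A Boolean matrix of rank at most `R` and mean at most `p₁ ≤ 1 / 2` in the
product state `μ₀ ⊗ ν₀`: for every cap `c` there is a product state of cost at most `c` in which the
mean is at most `τ`, or has decreased by the factor `exp (-(slope * (c - 2 T)))`. -/
theorem amp {N : X → Y → ℝ} (hN : ∀ x y, N x y = 0 ∨ N x y = 1) {R : ℕ}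
    (hrank : (Matrix.of N).rank ≤ R) {μ₀ : X → ℝ} {ν₀ : Y → ℝ} (hμ : IsPos μ₀) (hν : IsPos ν₀)
    {p₁ : ℝ} (hp : em μ₀ ν₀ N ≤ p₁) (hp1 : p₁ ≤ 1 / 2) (hRp : 1 ≤ R * p₁) {τ c : ℝ}
    (hτ : 0 < τ) (hc : 0 ≤ c) :
    ∃ (α : X → ℝ) (β : Y → ℝ), IsPr α ∧ IsPr β ∧ DD μ₀ α + DD ν₀ β ≤ c ∧
      em α β N ≤ em μ₀ ν₀ N ∧
      (em α β N ≤ τ ∨ em α β N + τ ≤ (em μ₀ ν₀ N + τ) *
        Real.exp (-(slope R p₁ * (c - 2 * Real.log (1 / (4 * slope R p₁)))))) := by
  have hN0 : ∀ x y, 0 ≤ N x y := by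
    intro x y
    rcases hN x y with h | h <;> rw [h]
    exact zero_le_one
  have hε := slope_pos hRp
  set ε := slope R p₁ with hεd
  obtain ⟨α, β, hα, hβ, hcost, hle, h⟩ := exists_max hN0 hμ hν (T := Real.log (1 / (4 * ε)))
    hε hτ hc
  refine ⟨α, β, hα, hβ, hcost, hle, ?_⟩
  rcases h with h | h | h
  · exact Or.inl h
  · exact Or.inr h
  left
  by_contra hcon
  push Not at hcon
  have hp0 : 0 < em α β N := hτ.trans hcon
  have hR1 : 1 ≤ R := by
    rcases Nat.eq_zero_or_pos R with h0 | h0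
    · rw [h0] at hRp
      norm_num at hRp
    · exact h0
  have hR1' : (1 : ℝ) ≤ R := by exact_mod_cast hR1
  have hlogR : 0 ≤ Real.log R := Real.log_nonneg hR1'
  have hsq : 1 ≤ Real.sqrt (R * p₁) := by
    rw [Real.one_le_sqrt]
    exact hRp
  set S := Real.sqrt (R * p₁) with hS
  set L2 := 24 + 2 * Real.log R with hL2
  have hL2' : 24 ≤ L2 := by linarith
  have hεe : ε * (1200 * L2 * S) = 1 := by
    rw [hεd]
    unfold slope
    rw [← hL2, ← hS]
    have : 0 < 1200 * L2 * S := by positivity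
    field_simp
  have hε1 : ε ≤ 1 / 64 := by
    have h0 : (24 : ℝ) * 1 ≤ L2 * S := mul_le_mul hL2' hsq zero_le_one (by linarith only [hL2'])
    have h1 : (64 : ℝ) ≤ 1200 * L2 * S := by linarith only [h0]
    have h2 := mul_le_mul_of_nonneg_left h1 hε.le
    linarith only [h2, hεe]
  have hT : Real.exp (-Real.log (1 / (4 * ε))) ≤ 4 * ε := by
    rw [Real.exp_neg, Real.exp_log (by positivity), one_div, inv_inv]
  set L := Real.sqrt L2 with hL
  have hLsq : L ^ 2 = L2 := Real.sq_sqrt (by linarith)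
  have hL2le : 2 ≤ L := by
    rw [hL]
    apply Real.le_sqrt_of_sq_le
    linarith
  have key := stab_rank hα hβ hN hR1 hrank hε hε1 hT h hp0 hL2le
  rw [hLsq] at key
  set p := em α β N with hpd
  have hpp : p ≤ p₁ := hle.trans hp
  have hp12 : p ≤ 1 / 2 := hpp.trans hp1
  -- numerical part
  have hexp : Real.exp (-(L2 / 4)) ≤ 1 / (192 * Real.sqrt R) := by
    have h1 : L2 / 4 = 6 + Real.log (Real.sqrt R) := by
      rw [Real.log_sqrt (by linarith)]
      linarith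
    have hsR : 0 < Real.sqrt R := Real.sqrt_pos.mpr (by linarith)
    rw [h1, Real.exp_neg, Real.exp_add, Real.exp_log hsR, one_div]
    apply inv_anti₀ (by positivity)
    apply mul_le_mul_of_nonneg_right _ hsR.le
    have h2 := Real.exp_one_gt_d9
    have h3 : Real.exp 6 = Real.exp 1 ^ 6 := by
      rw [← Real.exp_nat_mul]
      norm_num
    rw [h3]
    have h4 : (2.7 : ℝ) ^ 6 ≤ Real.exp 1 ^ 6 := by
      apply pow_le_pow_left₀ (by norm_num)
      linarith
    norm_num at h4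
    linarith
  have hsR : 0 < Real.sqrt R := Real.sqrt_pos.mpr (by linarith)
  have hsp : 0 < Real.sqrt p := Real.sqrt_pos.mpr hp0
  have hsp1 : Real.sqrt p ≤ 1 := by
    rw [Real.sqrt_le_one]
    linarith
  have hs2 : Real.sqrt (2 * p) = Real.sqrt 2 * Real.sqrt p := Real.sqrt_mul (by norm_num) _
  have hs2' : Real.sqrt 2 ≤ 1.5 := by
    rw [Real.sqrt_le_left (by norm_num)]
    norm_num
  have hs20 : 0 < Real.sqrt 2 := Real.sqrt_pos.mpr (by norm_num)
  have hSS : Real.sqrt R * Real.sqrt p ≤ S := by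
    rw [hS, ← Real.sqrt_mul (by linarith)]
    apply Real.sqrt_le_sqrt
    apply mul_le_mul_of_nonneg_left hpp (by linarith)
  set D := 8 * (Real.sqrt (2 * p) * Real.sqrt R) with hD
  have hDpos : 0 < D := by
    rw [hD, hs2]
    positivity
  have hDle : D ≤ 12 * (Real.sqrt R * Real.sqrt p) := by
    rw [hD, hs2]
    have h1 : 0 < Real.sqrt R * Real.sqrt p := by positivity
    have h2 := mul_le_mul_of_nonneg_right hs2' h1.le
    linarith only [h2]
  have hDS : D ≤ 12 * S := by linarith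
  have hDR : D ≤ 12 * Real.sqrt R := by
    have : Real.sqrt R * Real.sqrt p ≤ Real.sqrt R * 1 := by gcongr
    linarith
  rw [div_le_iff₀ hDpos] at key
  have h1 : 4 * Real.exp (-(L2 / 4)) * D ≤ 1 / 4 := by
    calc 4 * Real.exp (-(L2 / 4)) * D ≤ 4 * (1 / (192 * Real.sqrt R)) * (12 * Real.sqrt R) := by
          gcongr
      _ = 1 / 4 := by
          field_simp
          norm_num
  have h2 : 24 * L2 * ε * D < 1 / 4 := by
    have h3 : 24 * L2 * ε * D ≤ 24 * L2 * ε * (12 * S) := by gcongr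
    have h4 : 24 * L2 * ε * (12 * S) = 288 / 1200 * (ε * (1200 * L2 * S)) := by ring
    rw [h4, hεe] at h3
    linarith
  linarith only [key, h1, h2, hp12]

end Amp

end Pool.Agent.LR2
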