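import Pool.Agent.Lib_helper40.LR2.Amp4

/-!
# From a small mean to a rectangle of zeros
-/

set_option autoImplicit false
set_option linter.unusedSectionVars false

open Finset Matrix

namespace Pool.Agent.LR2

namespace Amp

variable {X Y : Type} [Fintype X] [Fintype Y]

/-- Markov for a product state -/
theorem markov_half {α : X → ℝ} (hα : IsPr α) {r : X → ℝ} (hr : ∀ x, 0 ≤ r x) {p : ℝ}
    (hp : ∑ x, α x * r x ≤ p) (hp0 : 0 < p) :
    1 / 2 ≤ ∑ x ∈ Finset.univ.filter (fun x => r x ≤ 2 * p), α x := by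
  classical
  have h1 := Finset.sum_filter_add_sum_filter_not (Finset.univ : Finset X)
    (fun x => r x ≤ 2 * p) α
  rw [hα.sum] at h1
  have h2 : 2 * p * ∑ x ∈ Finset.univ.filter (fun x => ¬ r x ≤ 2 * p), α x ≤ p := by
    rw [Finset.mul_sum]
    calc ∑ x ∈ Finset.univ.filter (fun x => ¬ r x ≤ 2 * p), 2 * p * α x ≤
          ∑ x ∈ Finset.univ.filter (fun x => ¬ r x ≤ 2 * p), α x * r x := by
          apply Finset.sum_le_sum
          intro x hx
          rw [Finset.mem_filter] at hx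
          have h3 := hα.nonneg x
          have h4 := hx.2
          push Not at h4
          nlinarith
      _ ≤ ∑ x, α x * r x := by
          apply Finset.sum_le_sum_of_subset_of_nonneg (Finset.filter_subset _ _)
          intro x _ _
          exact mul_nonneg (hα.nonneg x) (hr x)
      _ ≤ p := hp
  have h3 : ∑ x ∈ Finset.univ.filter (fun x => ¬ r x ≤ 2 * p), α x ≤ 1 / 2 := by
    by_contra hcon
    rw [not_le] at hcon
    nlinarith
  linarith

/-- a Boolean matrix of rank at most `R` and mean at most `1 / (4 R)` in a product state has a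
rectangle of zeros with sides of measure at least `1 / 2` -/
theorem zero_rect {α : X → ℝ} {β : Y → ℝ} (hα : IsPr α) (hβ : IsPr β) {N : X → Y → ℝ}
    (hN : ∀ x y, N x y = 0 ∨ N x y = 1) {R : ℕ} (hR : 1 ≤ R)
    (hrank : (Matrix.of N).rank ≤ R) (hp : em α β N ≤ 1 / (4 * R)) :
    ∃ (A : Finset X) (B : Finset Y), (∀ x ∈ A, ∀ y ∈ B, N x y = 0) ∧
      1 / 2 ≤ ∑ x ∈ A, α x ∧ 1 / 2 ≤ ∑ y ∈ B, β y := by
  classical
  have hR0 : (0 : ℝ) < R := by exact_mod_cast hR
  have hN0 : ∀ x y, 0 ≤ N x y := by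
    intro x y
    rcases hN x y with h | h <;> rw [h]
    exact zero_le_one
  set p : ℝ := 1 / (4 * R) with hpd
  have hp0 : 0 < p := by positivity
  set A : Finset X := Finset.univ.filter (fun x => rmean β N x ≤ 2 * p) with hA
  have hAm : 1 / 2 ≤ ∑ x ∈ A, α x := by
    apply markov_half hα (fun x => rmean_nonneg' hβ hN0 x) _ hp0
    rw [← em_row]
    exact hp
  set s : Set (Y → ℝ) := (fun x => N x) '' (A : Set X) with hs
  obtain ⟨b, hbs, hspan, hli⟩ := exists_linearIndependent ℝ s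
  have hsfin : s.Finite := A.finite_toSet.image _
  have hbfin : b.Finite := hsfin.subset hbs
  have : Fintype b := hbfin.fintype
  have hcard : b.toFinset.card ≤ R := by
    rw [← finrank_span_set_eq_card hli]
    calc Module.finrank ℝ (Submodule.span ℝ b) ≤
          Module.finrank ℝ (Submodule.span ℝ (Set.range (Matrix.of N).row)) := by
          apply Submodule.finrank_mono
          apply Submodule.span_mono
          intro v hv
          obtain ⟨x, _, hx⟩ := hbs hv
          exact ⟨x, hx⟩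
      _ = (Matrix.of N).rank := (Matrix.rank_eq_finrank_span_row _).symm
      _ ≤ R := hrank
  set B : Finset Y := Finset.univ.filter (fun y => ∀ v ∈ b.toFinset, v y = 0) with hB
  have hv : ∀ v ∈ b.toFinset, (∀ y, v y = 0 ∨ v y = 1) ∧ ∑ y, β y * v y ≤ 2 * p := by
    intro v hv
    rw [Set.mem_toFinset] at hv
    obtain ⟨x, hxA, hx⟩ := hbs hv
    rw [← hx]
    refine ⟨fun y => hN x y, ?_⟩
    have h1 : x ∈ A := hxA
    rw [hA, Finset.mem_filter] at h1
    exact h1.2
  refine ⟨A, B, ?_, hAm, ?_⟩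
  · intro x hx y hy
    have h1 : N x ∈ Submodule.span ℝ b := by
      rw [hspan]
      exact Submodule.subset_span ⟨x, hx, rfl⟩
    rw [hB, Finset.mem_filter] at hy
    have h2 : Submodule.span ℝ b ≤ LinearMap.ker (LinearMap.proj (R := ℝ) (φ := fun _ : Y => ℝ) y) := by
      rw [Submodule.span_le]
      intro v hv
      exact hy.2 v (Set.mem_toFinset.mpr hv)
    exact h2 h1
  · have h1 := Finset.sum_filter_add_sum_filter_not (Finset.univ : Finset Y)
      (fun y => ∀ v ∈ b.toFinset, v y = 0) β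
    rw [hβ.sum] at h1
    have h2 : ∑ y ∈ Finset.univ.filter (fun y => ¬ ∀ v ∈ b.toFinset, v y = 0), β y ≤
        ∑ v ∈ b.toFinset, ∑ y, β y * v y := by
      rw [Finset.sum_comm]
      calc ∑ y ∈ Finset.univ.filter (fun y => ¬ ∀ v ∈ b.toFinset, v y = 0), β y ≤
            ∑ y ∈ Finset.univ.filter (fun y => ¬ ∀ v ∈ b.toFinset, v y = 0),
              ∑ v ∈ b.toFinset, β y * v y := by
            apply Finset.sum_le_sum
            intro y hy
            rw [Finset.mem_filter] at hy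
            have h3 := hy.2
            push Not at h3
            obtain ⟨v, hvb, hvy⟩ := h3
            have h4 : v y = 1 := by
              rcases (hv v hvb).1 y with h | h
              · exact absurd h hvy
              · exact h
            calc β y = β y * v y := by rw [h4, mul_one]
              _ ≤ ∑ v ∈ b.toFinset, β y * v y := by
                apply Finset.single_le_sum (f := fun v => β y * v y) _ hvb
                intro w hw
                apply mul_nonneg (hβ.nonneg y)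
                rcases (hv w hw).1 y with h | h <;> rw [h]
                exact zero_le_one
        _ ≤ ∑ y, ∑ v ∈ b.toFinset, β y * v y := by
            apply Finset.sum_le_sum_of_subset_of_nonneg (Finset.filter_subset _ _)
            intro y _ _
            apply Finset.sum_nonneg
            intro w hw
            apply mul_nonneg (hβ.nonneg y)
            rcases (hv w hw).1 y with h | h <;> rw [h]
            exact zero_le_one
    have h3 : ∑ v ∈ b.toFinset, ∑ y, β y * v y ≤ 1 / 2 := by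
      calc ∑ v ∈ b.toFinset, ∑ y, β y * v y ≤ ∑ v ∈ b.toFinset, 2 * p :=
            Finset.sum_le_sum fun v h => (hv v h).2
        _ = b.toFinset.card * (2 * p) := by rw [Finset.sum_const, nsmul_eq_mul]
        _ ≤ R * (2 * p) := by
            have : (b.toFinset.card : ℝ) ≤ R := by exact_mod_cast hcard
            gcongr
        _ = 1 / 2 := by
            rw [hpd]
            field_simp
            norm_num
    linarith

variable [Nonempty X] [Nonempty Y]

/-- the mean can be made smaller than `τ` at cost `2 log (1 / 4 ε) + log (1 / τ) / ε` -/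
theorem amp_to {N : X → Y → ℝ} (hN : ∀ x y, N x y = 0 ∨ N x y = 1) {R : ℕ}
    (hrank : (Matrix.of N).rank ≤ R) {μ₀ : X → ℝ} {ν₀ : Y → ℝ} (hμ : IsPos μ₀) (hν : IsPos ν₀)
    {p₁ : ℝ} (hp : em μ₀ ν₀ N ≤ p₁) (hp1 : p₁ ≤ 1 / 2) (hRp : 1 ≤ R * p₁) {τ : ℝ}
    (hτ : 0 < τ) (hτ1 : τ ≤ 1 / 2) :
    ∃ (α : X → ℝ) (β : Y → ℝ), IsPr α ∧ IsPr β ∧
      DD μ₀ α + DD ν₀ β ≤ 2 * Real.log (1 / (4 * slope R p₁)) + Real.log (1 / τ) / slope R p₁ ∧
      em α β N ≤ τ := by
  have hε := slope_pos hRp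
  have hR1' : (1 : ℝ) ≤ R := by
    rcases Nat.eq_zero_or_pos R with h0 | h0
    · rw [h0] at hRp
      norm_num at hRp
    · exact_mod_cast h0
  have hε1 : slope R p₁ ≤ 1 / 4 := by
    unfold slope
    have h1 : 0 ≤ Real.log R := Real.log_nonneg hR1'
    have h2 : 1 ≤ Real.sqrt (R * p₁) := by
      rw [Real.one_le_sqrt]
      exact hRp
    apply one_div_le_one_div_of_le (by norm_num)
    nlinarith
  set ε := slope R p₁ with hεd
  have hT : 0 ≤ Real.log (1 / (4 * ε)) := by
    apply Real.log_nonneg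
    rw [le_div_iff₀ (by positivity)]
    linarith
  have hlτ : 0 ≤ Real.log (1 / τ) := by
    apply Real.log_nonneg
    rw [le_div_iff₀ hτ]
    linarith
  obtain ⟨α, β, hα, hβ, hcost, hle, h⟩ := amp hN hrank hμ hν hp hp1 hRp (τ := τ)
    (c := 2 * Real.log (1 / (4 * ε)) + Real.log (1 / τ) / ε) hτ (by positivity)
  refine ⟨α, β, hα, hβ, hcost, ?_⟩
  rcases h with h | h
  · exact h
  · have h1 : slope R p₁ * (2 * Real.log (1 / (4 * ε)) + Real.log (1 / τ) / ε -
        2 * Real.log (1 / (4 * slope R p₁))) = Real.log (1 / τ) := by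
      rw [← hεd]
      field_simp
      ring
    rw [h1, Real.exp_neg, Real.exp_log (by positivity), one_div, inv_inv] at h
    have h2 : (em μ₀ ν₀ N + τ) * τ ≤ 1 * τ := by
      apply mul_le_mul_of_nonneg_right _ hτ.le
      linarith
    linarith

/-- the measure of a set in the state is at most `exp DD` times the measure in the base -/
theorem mass_le {X : Type} [Fintype X] [Nonempty X] {μ₀ α : X → ℝ} (hμ : IsPos μ₀)
    (hα : IsPr α) (A : Finset X) :
    ∑ x ∈ A, α x ≤ Real.exp (DD μ₀ α) * ∑ x ∈ A, μ₀ x := by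
  rw [Finset.mul_sum]
  exact Finset.sum_le_sum fun x _ => le_DD hμ hα x

/-- **The finish.** A Boolean matrix of rank at most `R` with mean at most `p₁` in the product state
`μ₀ ⊗ ν₀` has a rectangle of zeros of measure `exp (-O(√(R p₁) log² R))`. -/
theorem finish {N : X → Y → ℝ} (hN : ∀ x y, N x y = 0 ∨ N x y = 1) {R : ℕ}
    (hrank : (Matrix.of N).rank ≤ R) {μ₀ : X → ℝ} {ν₀ : Y → ℝ} (hμ : IsPos μ₀) (hν : IsPos ν₀)
    {p₁ : ℝ} (hp : em μ₀ ν₀ N ≤ p₁) (hp1 : p₁ ≤ 1 / 2) (hRp : 1 ≤ R * p₁) :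
    ∃ (A : Finset X) (B : Finset Y), (∀ x ∈ A, ∀ y ∈ B, N x y = 0) ∧
      Real.exp (-(2 * Real.log (1 / (4 * slope R p₁)) + Real.log (4 * R) / slope R p₁)) / 4 ≤
        (∑ x ∈ A, μ₀ x) * ∑ y ∈ B, ν₀ y := by
  have hR1 : 1 ≤ R := by
    rcases Nat.eq_zero_or_pos R with h0 | h0
    · rw [h0] at hRp
      norm_num at hRp
    · exact h0
  have hR1' : (1 : ℝ) ≤ R := by exact_mod_cast hR1
  obtain ⟨α, β, hα, hβ, hcost, hle⟩ := amp_to hN hrank hμ hν hp hp1 hRp
    (τ := 1 / (4 * R)) (by positivity) (by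
      rw [div_le_div_iff₀ (by positivity) (by norm_num)]
      linarith)
  rw [one_div_one_div] at hcost
  obtain ⟨A, B, h0, hA, hB⟩ := zero_rect hα hβ hN hR1 hrank hle
  refine ⟨A, B, h0, ?_⟩
  have m1 := mass_le hμ hα A
  have m2 := mass_le hν hβ B
  set c := 2 * Real.log (1 / (4 * slope R p₁)) + Real.log (4 * R) / slope R p₁ with hc
  have h1 : (1 : ℝ) / 4 ≤ (Real.exp (DD μ₀ α) * ∑ x ∈ A, μ₀ x) *
      (Real.exp (DD ν₀ β) * ∑ y ∈ B, ν₀ y) := by
    calc (1 : ℝ) / 4 = (1 / 2) * (1 / 2) := by norm_num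
      _ ≤ _ := by
        apply mul_le_mul (hA.trans m1) (hB.trans m2) (by norm_num)
        exact le_trans (by norm_num) (hA.trans m1)
  have hs1 : 0 ≤ ∑ x ∈ A, μ₀ x := Finset.sum_nonneg fun x _ => (hμ.pos x).le
  have hs2 : 0 ≤ ∑ y ∈ B, ν₀ y := Finset.sum_nonneg fun y _ => (hν.pos y).le
  have h2 : (Real.exp (DD μ₀ α) * ∑ x ∈ A, μ₀ x) * (Real.exp (DD ν₀ β) * ∑ y ∈ B, ν₀ y) ≤
      Real.exp c * ((∑ x ∈ A, μ₀ x) * ∑ y ∈ B, ν₀ y) := by
    have h3 : (Real.exp (DD μ₀ α) * ∑ x ∈ A, μ₀ x) * (Real.exp (DD ν₀ β) * ∑ y ∈ B, ν₀ y) =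
        Real.exp (DD μ₀ α + DD ν₀ β) * ((∑ x ∈ A, μ₀ x) * ∑ y ∈ B, ν₀ y) := by
      rw [Real.exp_add]
      ring
    rw [h3]
    apply mul_le_mul_of_nonneg_right (Real.exp_le_exp.mpr hcost) (mul_nonneg hs1 hs2)
  have h3 := h1.trans h2
  rw [Real.exp_neg]
  have h4 : 0 < Real.exp c := Real.exp_pos c
  have h5 : (Real.exp c)⁻¹ * (1 / 4) ≤ (Real.exp c)⁻¹ *
      (Real.exp c * ((∑ x ∈ A, μ₀ x) * ∑ y ∈ B, ν₀ y)) :=
    mul_le_mul_of_nonneg_left h3 (inv_nonneg.mpr h4.le)
  rw [← mul_assoc, inv_mul_cancel₀ h4.ne', one_mul] at h5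
  linarith

end Amp

end Pool.Agent.LR2
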