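import Pool.Agent.Lib_helper40.LR2.Amp4

/-!
# The top of the proof: large monochromatic rectangles
-/

set_option autoImplicit false
set_option linter.unusedSectionVars false

open Finset Matrix

namespace Pool.Agent.LR2

namespace Top

open Amp

section Supp

variable {X Y : Type} [Fintype X] [Fintype Y]

/-- the support of a distribution -/
def Sup (α : X → ℝ) : Type := {x // α x ≠ 0}

noncomputable instance (α : X → ℝ) : Fintype (Sup α) := by
  classical
  unfold Sup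
  infer_instance

/-- the distribution on its support -/
def res (α : X → ℝ) : Sup α → ℝ := fun x => α x.1

theorem sum_sup (α : X → ℝ) (f : X → ℝ) : ∑ x : Sup α, α x.1 * f x.1 = ∑ x, α x * f x := by
  classical
  have h1 : ∑ x : Sup α, α x.1 * f x.1 =
      ∑ x ∈ (Finset.univ : Finset X).filter (fun x => α x ≠ 0), α x * f x := by
    rw [Finset.sum_subtype ((Finset.univ : Finset X).filter (fun x => α x ≠ 0))
      (p := fun x => α x ≠ 0) (by simp)]
    rfl
  rw [h1]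
  apply Finset.sum_subset (Finset.filter_subset _ _)
  intro x _ hx
  rw [Finset.mem_filter] at hx
  have : α x = 0 := by
    by_contra h
    exact hx ⟨Finset.mem_univ x, h⟩
  rw [this, zero_mul]

theorem isPos_res {α : X → ℝ} (hα : IsPr α) : IsPos (res α) := by
  constructor
  · intro x
    exact lt_of_le_of_ne (hα.nonneg x.1) (Ne.symm x.2)
  · have h1 := sum_sup α (fun _ => 1)
    simp only [mul_one] at h1
    show ∑ x : Sup α, α x.1 = 1
    rw [h1, hα.sum]

theorem nonempty_sup {α : X → ℝ} (hα : IsPr α) : Nonempty (Sup α) := by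
  by_contra h
  rw [not_nonempty_iff] at h
  have h1 := (isPos_res hα).sum
  rw [Finset.univ_eq_empty, Finset.sum_empty] at h1
  norm_num at h1

theorem em_res (α : X → ℝ) (β : Y → ℝ) (M : X → Y → ℝ) :
    em (res α) (res β) (fun x y => M x.1 y.1) = em α β M := by
  unfold em res
  have h1 : ∀ x : Sup α, ∑ y : Sup β, α x.1 * β y.1 * M x.1 y.1 =
      α x.1 * ∑ y, β y * M x.1 y := by
    intro x
    rw [← sum_sup β (fun y => M x.1 y), Finset.mul_sum]
    apply Finset.sum_congr rfl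
    intro y _
    ring
  have h2 : ∀ x : X, ∑ y, α x * β y * M x y = α x * ∑ y, β y * M x y := by
    intro x
    rw [Finset.mul_sum]
    apply Finset.sum_congr rfl
    intro y _
    ring
  simp only [h1, h2]
  exact sum_sup α (fun x => ∑ y, β y * M x y)

theorem rank_res (α : X → ℝ) (β : Y → ℝ) (M : X → Y → ℝ) :
    (Matrix.of fun (x : Sup α) (y : Sup β) => M x.1 y.1).rank ≤ (Matrix.of M).rank :=
  Matrix.rank_submatrix_le (Matrix.of M) (fun x : Sup α => x.1) (fun y : Sup β => y.1)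

/-- the embedding of the support -/
def emb (α : X → ℝ) : Sup α ↪ X := ⟨fun x => x.1, fun _ _ h => Subtype.ext h⟩

/-- masses on the support -/
theorem mass_map [Nonempty X] {μ₀ α : X → ℝ} (hμ : IsPos μ₀) (hα : IsPr α) (A : Finset (Sup α)) :
    ∑ x ∈ A, res α x ≤ Real.exp (DD μ₀ α) * ∑ x ∈ A.map (emb α), μ₀ x := by
  rw [Finset.sum_map, Finset.mul_sum]
  exact Finset.sum_le_sum fun x _ => le_DD hμ hα x.1

theorem mass_nonneg {μ₀ : X → ℝ} (hμ : IsPos μ₀) (A : Finset X) : 0 ≤ ∑ x ∈ A, μ₀ x :=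
  Finset.sum_nonneg fun x _ => (hμ.pos x).le

end Supp

/-- the mean of the Boolean matrix of a sign matrix -/
theorem em_half {X Y : Type} [Fintype X] [Fintype Y] {α : X → ℝ} {β : Y → ℝ} (hα : IsPr α)
    (hβ : IsPr β) (M : X → Y → ℝ) :
    em α β (fun x y => (1 - M x y) / 2) = (1 - em α β M) / 2 := by
  have h1 : em α β (fun x y => (1 - M x y) / 2) =
      em α β (fun x y => 1 / 2 + (-(1 / 2)) * M x y) := by
    congr 1
    funext x y
    ring
  rw [h1, em_add α β (fun _ _ => 1 / 2) (fun x y => (-(1 / 2)) * M x y),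
    em_smul α β (-(1 / 2)) M, em_const hα hβ]
  ring

section Slope

variable {R : ℕ} {κ p₁ : ℝ}

theorem slope_inv (hR : 1 ≤ R) (hκ : 1200 * (24 + 2 * Real.log R) ≤ (R : ℝ) ^ κ) :
    1 / Amp.slope R p₁ ≤ (R : ℝ) ^ κ * Real.sqrt (R * p₁) := by
  unfold Amp.slope
  rw [one_div_one_div]
  exact mul_le_mul_of_nonneg_right hκ (Real.sqrt_nonneg _)

theorem slope_T (hR : 1 ≤ R) (hκ1 : κ ≤ 1 / 2)
    (hκ : 1200 * (24 + 2 * Real.log R) ≤ (R : ℝ) ^ κ) (hp1 : p₁ ≤ 1 / 2) (hRp : 1 ≤ R * p₁) :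
    Real.log (1 / (4 * Amp.slope R p₁)) ≤ Real.log R := by
  have hR1 : (1 : ℝ) ≤ R := by exact_mod_cast hR
  have hs := slope_pos hRp
  apply Real.log_le_log (by positivity)
  have h1 : 1 / (4 * Amp.slope R p₁) = (1 / Amp.slope R p₁) / 4 := by
    field_simp
  have h2 := slope_inv (p₁ := p₁) hR hκ
  have h3 : Real.sqrt (R * p₁) ≤ (R : ℝ) ^ (1 / 2 : ℝ) := by
    rw [← Real.sqrt_eq_rpow]
    apply Real.sqrt_le_sqrt
    nlinarith
  have h4 : (R : ℝ) ^ κ * Real.sqrt (R * p₁) ≤ (R : ℝ) ^ (1 : ℝ) := by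
    calc (R : ℝ) ^ κ * Real.sqrt (R * p₁) ≤ (R : ℝ) ^ κ * (R : ℝ) ^ (1 / 2 : ℝ) := by
          gcongr
      _ = (R : ℝ) ^ (κ + 1 / 2) := (Real.rpow_add (by linarith) _ _).symm
      _ ≤ (R : ℝ) ^ (1 : ℝ) := by
          apply Real.rpow_le_rpow_of_exponent_le hR1
          linarith
  rw [Real.rpow_one] at h4
  rw [h1]
  linarith

end Slope

/-- thresholds: `K ≤ R ^ κ` and `log R ≤ R ^ κ` -/
theorem logR_le {R : ℕ} {κ : ℝ} (hR : 1 ≤ R)
    (hκ : 1200 * (24 + 2 * Real.log R) ≤ (R : ℝ) ^ κ) :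
    28800 ≤ (R : ℝ) ^ κ ∧ 2400 * Real.log R ≤ (R : ℝ) ^ κ := by
  have hR1 : (1 : ℝ) ≤ R := by exact_mod_cast hR
  have h1 : 0 ≤ Real.log R := Real.log_nonneg hR1
  constructor <;> linarith

/-- the threshold is reached -/
theorem eventually_thr {κ : ℝ} (hκ : 0 < κ) :
    ∃ R0 : ℕ, 1 ≤ R0 ∧ ∀ R : ℕ, R0 ≤ R → 1200 * (24 + 2 * Real.log R) ≤ (R : ℝ) ^ κ := by
  have h1 : Filter.Tendsto (fun x : ℝ => Real.log x / x ^ κ) Filter.atTop (nhds 0) :=
    (isLittleO_log_rpow_atTop hκ).tendsto_div_nhds_zero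
  have h2 : Filter.Tendsto (fun x : ℝ => x ^ κ) Filter.atTop Filter.atTop :=
    tendsto_rpow_atTop hκ
  have h3 := (h1.eventually_le_const (show (0 : ℝ) < 1 / 4800 by norm_num)).and
    ((h2.eventually_ge_atTop 57600).and (Filter.eventually_ge_atTop (1 : ℝ)))
  obtain ⟨x0, hx0⟩ := Filter.eventually_atTop.mp h3
  refine ⟨max 1 ⌈x0⌉₊, le_max_left _ _, fun R hR => ?_⟩
  have h4 : x0 ≤ (R : ℝ) := (Nat.le_ceil x0).trans (by exact_mod_cast (le_max_right _ _).trans hR)
  obtain ⟨h5, h6, h7⟩ := hx0 R h4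
  have h8 : 0 < (R : ℝ) ^ κ := Real.rpow_pos_of_pos (by linarith) _
  rw [div_le_iff₀ h8] at h5
  linarith

end Top

end Pool.Agent.LR2
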