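import Pool.Agent.Lib_helper40.LR2.Amp5
import Pool.Agent.Lib_helper40.LR2.Top1

/-!
# The three stages: start, extremal state, finish
-/

set_option autoImplicit false
set_option linter.unusedSectionVars false

open Finset Matrix

namespace Pool.Agent.LR2

namespace Top

open Amp

/-- the input of the top: a state which is cheap relative to the base, does not lose mean, and is
almost constant if its mean is not negligible -/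
def Base (s : ℝ) (R0 : ℕ) : Prop :=
  ∀ (R : ℕ), R0 ≤ R → ∀ {X Y : Type} [Fintype X] [Fintype Y] [Nonempty X] [Nonempty Y]
    {M : X → Y → ℝ} {μ₀ : X → ℝ} {ν₀ : Y → ℝ},
    (∀ x y, M x y = 1 ∨ M x y = -1) → (Matrix.of M).rank ≤ R → IsPos μ₀ → IsPos ν₀ →
    ∃ (α : X → ℝ) (β : Y → ℝ), IsPr α ∧ IsPr β ∧
      em μ₀ ν₀ M - (R : ℝ) ^ (-(s / 8)) ≤
        em α β M - (R : ℝ) ^ (-(1 / 2) + s / 8) * (DD μ₀ α + DD ν₀ β) ∧
      ((R : ℝ) ^ (-s) ≤ em α β M → 1 - (em α β M) ^ 2 ≤ (R : ℝ) ^ (-s))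

section Pow

variable {R : ℕ} {κ : ℝ}

theorem two_le (hR : 1 ≤ R) (hκ1 : κ ≤ 1)
    (hκ : 1200 * (24 + 2 * Real.log R) ≤ (R : ℝ) ^ κ) : 28800 ≤ (R : ℝ) := by
  have hR1 : (1 : ℝ) ≤ R := by exact_mod_cast hR
  obtain ⟨h1, _⟩ := logR_le hR hκ
  have h2 : (R : ℝ) ^ κ ≤ (R : ℝ) ^ (1 : ℝ) := Real.rpow_le_rpow_of_exponent_le hR1 hκ1
  rw [Real.rpow_one] at h2
  linarith

end Pow

variable {X Y : Type} [Fintype X] [Fintype Y] [Nonempty X] [Nonempty Y]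

theorem half_bool {M : X → Y → ℝ} (hM : ∀ x y, M x y = 1 ∨ M x y = -1) (x : X) (y : Y) :
    (1 - M x y) / 2 = 0 ∨ (1 - M x y) / 2 = 1 := by
  rcases hM x y with h | h
  · left
    rw [h]
    norm_num
  · right
    rw [h]
    norm_num

theorem em_le_one {X Y : Type} [Fintype X] [Fintype Y] {α : X → ℝ} {β : Y → ℝ} (hα : IsPr α)
    (hβ : IsPr β) {M : X → Y → ℝ} (hM : ∀ x y, M x y = 1 ∨ M x y = -1) : em α β M ≤ 1 := by
  have h1 : em α β M ≤ em α β fun _ _ => 1 := em_mono hα hβ fun x y => by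
    rcases hM x y with h | h <;> rw [h]
    norm_num
  rw [em_const hα hβ] at h1
  exact h1

/-- the start -/
theorem stage1 {M : X → Y → ℝ} (hM : ∀ x y, M x y = 1 ∨ M x y = -1) {R : ℕ} (hR : 1 ≤ R)
    (hrank : (Matrix.of fun x y => (1 - M x y) / 2).rank ≤ R) {κ : ℝ} (hκ0 : 0 < κ)
    (hκ1 : 32 * κ ≤ 1) (hκ : 1200 * (24 + 2 * Real.log R) ≤ (R : ℝ) ^ κ) {μ₀ : X → ℝ}
    {ν₀ : Y → ℝ} (hμ : IsPos μ₀) (hν : IsPos ν₀) (h0 : 0 ≤ em μ₀ ν₀ M) :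
    ∃ (α : X → ℝ) (β : Y → ℝ), IsPr α ∧ IsPr β ∧
      DD μ₀ α + DD ν₀ β ≤ (R : ℝ) ^ (1 / 2 - 2 * κ) ∧ (R : ℝ) ^ (-(3 * κ)) / 4 ≤ em α β M := by
  have hR1 : (1 : ℝ) ≤ R := by exact_mod_cast hR
  have hRpos : (0 : ℝ) < R := by linarith
  have hμp : IsPr μ₀ := ⟨fun x => (hμ.pos x).le, hμ.sum⟩
  have hνp : IsPr ν₀ := ⟨fun x => (hν.pos x).le, hν.sum⟩
  have hR2 := two_le hR (by linarith) hκ
  obtain ⟨hb, hlog⟩ := logR_le hR hκ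
  have hRp : (1 : ℝ) ≤ R * (1 / 2) := by linarith
  have hs := slope_pos hRp
  have hinv := slope_inv (p₁ := 1 / 2) hR hκ
  have hT := slope_T (p₁ := 1 / 2) hR (by linarith) hκ le_rfl hRp
  set ε := Amp.slope R (1 / 2) with hε
  have hc : (0 : ℝ) ≤ (R : ℝ) ^ (1 / 2 - 2 * κ) := Real.rpow_nonneg hRpos.le _
  have hemN : em μ₀ ν₀ (fun x y => (1 - M x y) / 2) ≤ 1 / 2 := by
    rw [em_half hμp hνp]
    linarith
  obtain ⟨α, β, hα, hβ, hcost, _, h⟩ := amp (N := fun x y => (1 - M x y) / 2)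
    (half_bool hM) hrank hμ hν hemN le_rfl hRp (τ := 1 / 4)
    (c := (R : ℝ) ^ (1 / 2 - 2 * κ)) (by norm_num) hc
  refine ⟨α, β, hα, hβ, hcost, ?_⟩
  have hy1 : (R : ℝ) ^ (-(3 * κ)) ≤ 1 := Real.rpow_le_one_of_one_le_of_nonpos hR1 (by linarith)
  have hy0 : 0 < (R : ℝ) ^ (-(3 * κ)) := Real.rpow_pos_of_pos hRpos _
  rw [em_half hα hβ] at h
  rcases h with h | h
  · linarith
  · -- the exponent
    set y : ℝ := (R : ℝ) ^ (-(3 * κ)) / 2 with hy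
    set x : ℝ := ε * ((R : ℝ) ^ (1 / 2 - 2 * κ) - 2 * Real.log (1 / (4 * ε))) with hx
    have hbc : (R : ℝ) ^ κ ≤ (R : ℝ) ^ (1 / 2 - 2 * κ) :=
      Real.rpow_le_rpow_of_exponent_le hR1 (by linarith)
    have h1 : (R : ℝ) ^ (1 / 2 - 2 * κ) / 2 ≤
        (R : ℝ) ^ (1 / 2 - 2 * κ) - 2 * Real.log (1 / (4 * ε)) := by
      nlinarith
    have h2 : (R : ℝ) ^ (-(κ + 1 / 2)) ≤ ε := by
      have h3 : (R : ℝ) ^ κ * Real.sqrt (R * (1 / 2)) ≤ (R : ℝ) ^ (κ + 1 / 2) := by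
        rw [Real.rpow_add hRpos, ← Real.sqrt_eq_rpow]
        apply mul_le_mul_of_nonneg_left _ (Real.rpow_nonneg hRpos.le _)
        apply Real.sqrt_le_sqrt
        linarith
      have h4 : 1 / ε ≤ (R : ℝ) ^ (κ + 1 / 2) := hinv.trans h3
      rw [Real.rpow_neg hRpos.le, inv_eq_one_div]
      rw [one_div_le (Real.rpow_pos_of_pos hRpos _) hs]
      exact h4
    have h3 : y ≤ x := by
      calc y = (R : ℝ) ^ (-(κ + 1 / 2)) * ((R : ℝ) ^ (1 / 2 - 2 * κ) / 2) := by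
            rw [hy, ← mul_div_assoc, ← Real.rpow_add hRpos]
            congr 2
            ring
        _ ≤ x := by
            rw [hx]
            apply mul_le_mul h2 h1 (by positivity) hs.le
    have h4 : Real.exp (-x) ≤ 1 / (1 + y) := by
      rw [Real.exp_neg, ← one_div]
      apply one_div_le_one_div_of_le (by positivity)
      have h5 := Real.add_one_le_exp x
      linarith
    have h5 : 1 / (1 + y) ≤ 1 - y / 2 := by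
      rw [div_le_iff₀ (by positivity)]
      nlinarith
    have h6 : em μ₀ ν₀ (fun x y => (1 - M x y) / 2) + 1 / 4 ≤ 3 / 4 := by linarith
    have h7 : (em μ₀ ν₀ (fun x y => (1 - M x y) / 2) + 1 / 4) * Real.exp (-x) ≤
        3 / 4 * (1 - y / 2) :=
      mul_le_mul h6 (h4.trans h5) (Real.exp_pos _).le (by norm_num)
    have h8 : y = (R : ℝ) ^ (-(3 * κ)) / 2 := hy
    linarith

/-- the extremal state -/
theorem stage2 {s : ℝ} {R0 : ℕ} (hbase : Base s R0) {M : X → Y → ℝ}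
    (hM : ∀ x y, M x y = 1 ∨ M x y = -1) {R : ℕ} (hR : 1 ≤ R) (hR0 : R0 ≤ R)
    (hrank : (Matrix.of M).rank ≤ R) {κ : ℝ} (hκ0 : 0 < κ)
    (hκs : 16 * κ ≤ s / 8)
    (hκ : 1200 * (24 + 2 * Real.log R) ≤ (R : ℝ) ^ κ) {μ₀ : X → ℝ}
    {ν₀ : Y → ℝ} (hμ : IsPos μ₀) (hν : IsPos ν₀) (h0 : (R : ℝ) ^ (-(3 * κ)) / 4 ≤ em μ₀ ν₀ M) :
    ∃ (α : X → ℝ) (β : Y → ℝ), IsPr α ∧ IsPr β ∧
      DD μ₀ α + DD ν₀ β ≤ 2 * (R : ℝ) ^ (1 / 2 - s / 8) ∧ 0 ≤ em α β M ∧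
      1 - (em α β M) ^ 2 ≤ (R : ℝ) ^ (-s) := by
  have hR1 : (1 : ℝ) ≤ R := by exact_mod_cast hR
  have hRpos : (0 : ℝ) < R := by linarith
  obtain ⟨hb, hlog⟩ := logR_le hR hκ
  obtain ⟨α, β, hα, hβ, hineq, himp⟩ := hbase R hR0 hM hrank hμ hν
  have hDD : 0 ≤ DD μ₀ α + DD ν₀ β := add_nonneg (DD_nonneg hμ hα) (DD_nonneg hν hβ)
  set lam : ℝ := (R : ℝ) ^ (-(1 / 2) + s / 8) with hlam
  have hlam0 : 0 < lam := Real.rpow_pos_of_pos hRpos _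
  have p16 : (R : ℝ) ^ (-(16 * κ)) ≤ (R : ℝ) ^ (-(3 * κ)) / 16 := by
    have h1 : (R : ℝ) ^ (-(16 * κ)) ≤ (R : ℝ) ^ (-(3 * κ) - κ) :=
      Real.rpow_le_rpow_of_exponent_le hR1 (by linarith)
    rw [Real.rpow_sub hRpos] at h1
    refine h1.trans ?_
    apply div_le_div_of_nonneg_left (Real.rpow_nonneg hRpos.le _) (by norm_num)
    linarith
  have q1 : (R : ℝ) ^ (-(s / 8)) ≤ (R : ℝ) ^ (-(16 * κ)) :=
    Real.rpow_le_rpow_of_exponent_le hR1 (by linarith)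
  have q2 : (R : ℝ) ^ (-s) ≤ (R : ℝ) ^ (-(16 * κ)) :=
    Real.rpow_le_rpow_of_exponent_le hR1 (by linarith)
  have hy0 : 0 < (R : ℝ) ^ (-(3 * κ)) := Real.rpow_pos_of_pos hRpos _
  have hlD := mul_nonneg hlam0.le hDD
  have hU : (R : ℝ) ^ (-s) ≤ em α β M := by linarith
  have hs0 : 0 < (R : ℝ) ^ (-s) := Real.rpow_pos_of_pos hRpos _
  refine ⟨α, β, hα, hβ, ?_, by linarith, himp hU⟩
  have hU1 := em_le_one hα hβ hM
  have hs8 : (R : ℝ) ^ (-(s / 8)) ≤ 1 :=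
    Real.rpow_le_one_of_one_le_of_nonpos hR1 (by linarith)
  have h1 : lam * (DD μ₀ α + DD ν₀ β) ≤ 2 := by linarith
  have h2 : lam * (R : ℝ) ^ (1 / 2 - s / 8) = 1 := by
    rw [hlam, ← Real.rpow_add hRpos]
    have : -(1 / 2) + s / 8 + (1 / 2 - s / 8) = 0 := by ring
    rw [this, Real.rpow_zero]
  have h3 : lam * (DD μ₀ α + DD ν₀ β) ≤ lam * (2 * (R : ℝ) ^ (1 / 2 - s / 8)) := by
    calc _ ≤ 2 := h1
      _ = 2 * (lam * (R : ℝ) ^ (1 / 2 - s / 8)) := by rw [h2]; norm_num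
      _ = _ := by ring
  exact le_of_mul_le_mul_left h3 hlam0

/-- the finish -/
theorem stage3 {M : X → Y → ℝ} (hM : ∀ x y, M x y = 1 ∨ M x y = -1) {R : ℕ} (hR : 1 ≤ R)
    (hrank : (Matrix.of fun x y => (1 - M x y) / 2).rank ≤ R) {κ s : ℝ} (hκ0 : 0 < κ)
    (hκ1 : 32 * κ ≤ 1) (hκs : 16 * κ ≤ s)
    (hκ : 1200 * (24 + 2 * Real.log R) ≤ (R : ℝ) ^ κ) {μ₀ : X → ℝ}
    {ν₀ : Y → ℝ} (hμ : IsPos μ₀) (hν : IsPos ν₀) (h0 : 0 ≤ em μ₀ ν₀ M)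
    (h1 : 1 - (em μ₀ ν₀ M) ^ 2 ≤ (R : ℝ) ^ (-s)) :
    ∃ (A : Finset X) (B : Finset Y), (∀ x ∈ A, ∀ y ∈ B, M x y = 1) ∧
      Real.exp (-(2 * (R : ℝ) ^ (1 / 2 - 2 * κ))) / 4 ≤ (∑ x ∈ A, μ₀ x) * ∑ y ∈ B, ν₀ y := by
  have hR1 : (1 : ℝ) ≤ R := by exact_mod_cast hR
  have hRpos : (0 : ℝ) < R := by linarith
  have hμp : IsPr μ₀ := ⟨fun x => (hμ.pos x).le, hμ.sum⟩
  have hνp : IsPr ν₀ := ⟨fun x => (hν.pos x).le, hν.sum⟩
  have hR2 := two_le hR (by linarith) hκ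
  obtain ⟨hb, hlog⟩ := logR_le hR hκ
  set p₁ : ℝ := (R : ℝ) ^ (-(16 * κ)) with hp₁
  have hp₁0 : 0 < p₁ := Real.rpow_pos_of_pos hRpos _
  have hp₁1 : p₁ ≤ 1 / 2 := by
    have h2 : p₁ ≤ (R : ℝ) ^ (-κ) := Real.rpow_le_rpow_of_exponent_le hR1 (by linarith)
    rw [Real.rpow_neg hRpos.le, inv_eq_one_div] at h2
    refine h2.trans ?_
    apply one_div_le_one_div_of_le (by norm_num)
    linarith
  have hRp' : (R : ℝ) * p₁ = (R : ℝ) ^ (1 - 16 * κ) := by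
    rw [hp₁, sub_eq_add_neg, Real.rpow_add hRpos, Real.rpow_one]
  have hRp : 1 ≤ (R : ℝ) * p₁ := by
    rw [hRp']
    exact Real.one_le_rpow hR1 (by linarith)
  have hU1 := em_le_one hμp hνp hM
  have hemN : em μ₀ ν₀ (fun x y => (1 - M x y) / 2) ≤ p₁ := by
    rw [em_half hμp hνp]
    have h2 : (R : ℝ) ^ (-s) ≤ p₁ := Real.rpow_le_rpow_of_exponent_le hR1 (by linarith)
    nlinarith
  obtain ⟨A, B, hAB, hm⟩ := finish (N := fun x y => (1 - M x y) / 2) (half_bool hM) hrank hμ hν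
    hemN hp₁1 hRp
  refine ⟨A, B, fun x hx y hy => by
    have := hAB x hx y hy
    linarith, le_trans ?_ hm⟩
  have hs := slope_pos hRp
  have hinv := slope_inv (p₁ := p₁) hR hκ
  have hT := slope_T (p₁ := p₁) hR (by linarith) hκ hp₁1 hRp
  have hlog0 : 0 ≤ Real.log R := Real.log_nonneg hR1
  have hbpos : 0 < (R : ℝ) ^ κ := Real.rpow_pos_of_pos hRpos _
  have h4R : Real.log (4 * R) ≤ (R : ℝ) ^ κ := by
    rw [Real.log_mul (by norm_num) hRpos.ne']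
    have h2 : Real.log 4 ≤ 4 - 1 := Real.log_le_sub_one_of_pos (by norm_num)
    linarith
  have h4R0 : 0 ≤ Real.log (4 * R) := Real.log_nonneg (by linarith)
  have hsq : Real.sqrt (R * p₁) = (R : ℝ) ^ (1 / 2 - 8 * κ) := by
    rw [hRp', Real.sqrt_eq_rpow, ← Real.rpow_mul hRpos.le]
    congr 1
    ring
  rw [hsq] at hinv
  have hbc : (R : ℝ) ^ κ ≤ (R : ℝ) ^ (1 / 2 - 2 * κ) :=
    Real.rpow_le_rpow_of_exponent_le hR1 (by linarith)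
  have hcost : 2 * Real.log (1 / (4 * Amp.slope R p₁)) + Real.log (4 * R) / Amp.slope R p₁ ≤
      2 * (R : ℝ) ^ (1 / 2 - 2 * κ) := by
    have h2 : Real.log (4 * R) / Amp.slope R p₁ ≤ (R : ℝ) ^ (1 / 2 - 2 * κ) := by
      calc Real.log (4 * R) / Amp.slope R p₁ = Real.log (4 * R) * (1 / Amp.slope R p₁) := by
            ring
        _ ≤ (R : ℝ) ^ κ * ((R : ℝ) ^ κ * (R : ℝ) ^ (1 / 2 - 8 * κ)) := by
            apply mul_le_mul h4R hinv (by positivity) hbpos.le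
        _ = (R : ℝ) ^ (κ + (κ + (1 / 2 - 8 * κ))) := by
            rw [Real.rpow_add hRpos, Real.rpow_add hRpos]
        _ ≤ (R : ℝ) ^ (1 / 2 - 2 * κ) :=
            Real.rpow_le_rpow_of_exponent_le hR1 (by linarith)
    linarith
  have h2 := Real.exp_le_exp.mpr (neg_le_neg hcost)
  linarith

/-- **Monochromatic rectangles.** -/
theorem rect {s : ℝ} {R0 : ℕ} (hbase : Base s R0) {M : X → Y → ℝ}
    (hM : ∀ x y, M x y = 1 ∨ M x y = -1) {R : ℕ} (hR : 1 ≤ R) (hR0 : R0 ≤ R)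
    (hrank : (Matrix.of M).rank ≤ R)
    (hrank' : (Matrix.of fun x y => (1 - M x y) / 2).rank ≤ R) {κ : ℝ} (hκ0 : 0 < κ)
    (hκ1 : 32 * κ ≤ 1) (hκs : 16 * κ ≤ s / 8)
    (hκ : 1200 * (24 + 2 * Real.log R) ≤ (R : ℝ) ^ κ) {μ₀ : X → ℝ}
    {ν₀ : Y → ℝ} (hμ : IsPos μ₀) (hν : IsPos ν₀) (h0 : 0 ≤ em μ₀ ν₀ M) :
    ∃ (A : Finset X) (B : Finset Y), (∀ x ∈ A, ∀ y ∈ B, M x y = 1) ∧
      Real.exp (-((R : ℝ) ^ (1 / 2 - κ))) / 4 ≤ (∑ x ∈ A, μ₀ x) * ∑ y ∈ B, ν₀ y := by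
  have hR1 : (1 : ℝ) ≤ R := by exact_mod_cast hR
  have hRpos : (0 : ℝ) < R := by linarith
  obtain ⟨hb, hlog⟩ := logR_le hR hκ
  have hκs' : 16 * κ ≤ s := by linarith
  obtain ⟨α₁, β₁, hα₁, hβ₁, hc₁, hU₁⟩ := stage1 hM hR hrank' hκ0 hκ1 hκ hμ hν h0
  have := nonempty_sup hα₁
  have := nonempty_sup hβ₁
  set M₁ : Sup α₁ → Sup β₁ → ℝ := fun x y => M x.1 y.1 with hM₁
  have hM₁' : ∀ x y, M₁ x y = 1 ∨ M₁ x y = -1 := fun x y => hM x.1 y.1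
  have hr₁ : (Matrix.of M₁).rank ≤ R := (rank_res α₁ β₁ M).trans hrank
  obtain ⟨α₂, β₂, hα₂, hβ₂, hc₂, hU₂, hfin⟩ := stage2 hbase hM₁' hR hR0 hr₁ hκ0 hκs hκ
    (isPos_res hα₁) (isPos_res hβ₁) (by
      rw [hM₁, em_res]
      exact hU₁)
  have := nonempty_sup hα₂
  have := nonempty_sup hβ₂
  set M₂ : Sup α₂ → Sup β₂ → ℝ := fun x y => M₁ x.1 y.1 with hM₂
  have hM₂' : ∀ x y, M₂ x y = 1 ∨ M₂ x y = -1 := fun x y => hM₁' x.1 y.1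
  have hr₂ : (Matrix.of fun x y => (1 - M₂ x y) / 2).rank ≤ R := by
    have h1 := rank_res α₁ β₁ (fun x y => (1 - M x y) / 2)
    have h2 := rank_res α₂ β₂ (fun x y => (1 - M₁ x y) / 2)
    exact h2.trans (h1.trans hrank')
  obtain ⟨A, B, hAB, hm⟩ := stage3 hM₂' hR hr₂ hκ0 hκ1 hκs' hκ (isPos_res hα₂) (isPos_res hβ₂) (by
      rw [hM₂, em_res]
      exact hU₂) (by
      rw [hM₂, em_res]
      exact hfin)
  refine ⟨(A.map (emb α₂)).map (emb α₁), (B.map (emb β₂)).map (emb β₁), ?_, ?_⟩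
  · intro x hx y hy
    rw [Finset.mem_map] at hx hy
    obtain ⟨x₁, hx₁, rfl⟩ := hx
    obtain ⟨y₁, hy₁, rfl⟩ := hy
    rw [Finset.mem_map] at hx₁ hy₁
    obtain ⟨x₂, hx₂, rfl⟩ := hx₁
    obtain ⟨y₂, hy₂, rfl⟩ := hy₁
    exact hAB x₂ hx₂ y₂ hy₂
  · have a1 := mass_map (isPos_res hα₁) hα₂ A
    have a2 := mass_map hμ hα₁ (A.map (emb α₂))
    have b1 := mass_map (isPos_res hβ₁) hβ₂ B
    have b2 := mass_map hν hβ₁ (B.map (emb β₂))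
    set mA := ∑ x ∈ (A.map (emb α₂)).map (emb α₁), μ₀ x with hmA
    set mB := ∑ y ∈ (B.map (emb β₂)).map (emb β₁), ν₀ y with hmB
    have hmA0 : 0 ≤ mA := mass_nonneg hμ _
    have hmB0 : 0 ≤ mB := mass_nonneg hν _
    have a3 : ∑ x ∈ A, res α₂ x ≤
        Real.exp (DD (res α₁) α₂) * (Real.exp (DD μ₀ α₁) * mA) :=
      a1.trans (mul_le_mul_of_nonneg_left a2 (Real.exp_pos _).le)
    have b3 : ∑ y ∈ B, res β₂ y ≤
        Real.exp (DD (res β₁) β₂) * (Real.exp (DD ν₀ β₁) * mB) :=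
      b1.trans (mul_le_mul_of_nonneg_left b2 (Real.exp_pos _).le)
    have hA0 : 0 ≤ ∑ x ∈ A, res α₂ x := mass_nonneg (isPos_res hα₂) _
    have hB0 : 0 ≤ ∑ y ∈ B, res β₂ y := mass_nonneg (isPos_res hβ₂) _
    have h3 : (∑ x ∈ A, res α₂ x) * (∑ y ∈ B, res β₂ y) ≤
        Real.exp ((DD μ₀ α₁ + DD ν₀ β₁) + (DD (res α₁) α₂ + DD (res β₁) β₂)) * (mA * mB) := by
      refine (mul_le_mul a3 b3 hB0 (by positivity)).trans (le_of_eq ?_)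
      rw [Real.exp_add, Real.exp_add, Real.exp_add]
      ring
    have p1 : (R : ℝ) ^ (1 / 2 - s / 8) ≤ (R : ℝ) ^ (1 / 2 - 2 * κ) :=
      Real.rpow_le_rpow_of_exponent_le hR1 (by linarith)
    have p2 : 5 * (R : ℝ) ^ (1 / 2 - 2 * κ) ≤ (R : ℝ) ^ (1 / 2 - κ) := by
      have h4 : (R : ℝ) ^ (1 / 2 - κ) = (R : ℝ) ^ (1 / 2 - 2 * κ) * (R : ℝ) ^ κ := by
        rw [← Real.rpow_add hRpos]
        congr 1
        ring
      rw [h4]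
      have h5 : 0 ≤ (R : ℝ) ^ (1 / 2 - 2 * κ) := Real.rpow_nonneg hRpos.le _
      nlinarith
    have h4 : Real.exp ((DD μ₀ α₁ + DD ν₀ β₁) + (DD (res α₁) α₂ + DD (res β₁) β₂)) ≤
        Real.exp (3 * (R : ℝ) ^ (1 / 2 - 2 * κ)) := by
      apply Real.exp_le_exp.mpr
      linarith
    have h5 : Real.exp (-(2 * (R : ℝ) ^ (1 / 2 - 2 * κ))) / 4 ≤
        Real.exp (3 * (R : ℝ) ^ (1 / 2 - 2 * κ)) * (mA * mB) :=
      (hm.trans h3).trans (mul_le_mul_of_nonneg_right h4 (mul_nonneg hmA0 hmB0))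
    have h6 : Real.exp (-(3 * (R : ℝ) ^ (1 / 2 - 2 * κ))) *
        (Real.exp (-(2 * (R : ℝ) ^ (1 / 2 - 2 * κ))) / 4) ≤ mA * mB := by
      calc _ ≤ Real.exp (-(3 * (R : ℝ) ^ (1 / 2 - 2 * κ))) *
            (Real.exp (3 * (R : ℝ) ^ (1 / 2 - 2 * κ)) * (mA * mB)) :=
            mul_le_mul_of_nonneg_left h5 (Real.exp_pos _).le
        _ = mA * mB := by
            rw [← mul_assoc, ← Real.exp_add, neg_add_cancel, Real.exp_zero, one_mul]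
    refine le_trans ?_ h6
    rw [← mul_div_assoc, ← Real.exp_add]
    apply div_le_div_of_nonneg_right _ (by norm_num)
    apply Real.exp_le_exp.mpr
    linarith

end Top

end Pool.Agent.LR2
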