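import Pool.Agent.Lib_helper40.LR2.Top2
import Pool.Agent.Lib_helper66.LogRank.NW

/-!
# The protocol
-/

set_option autoImplicit false
set_option linter.unusedSectionVars false

open Finset Matrix

namespace Pool.Agent.LR2

namespace Top

open Pool.Agent.Lib_helper10.LogRank (Protocol realRank)
open Pool.Agent.Lib_helper66.LogRank (RectDense rk nw)

section Rank

variable {X Y : Type} [Fintype X] [Fintype Y]

theorem rank_affine (N : X → Y → ℝ) (a b : ℝ) :
    (Matrix.of fun x y => a + b * N x y).rank ≤ (Matrix.of N).rank + 1 := by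
  classical
  rw [Matrix.rank_eq_finrank_span_row, Matrix.rank_eq_finrank_span_row]
  have h1 : Submodule.span ℝ (Set.range (Matrix.of fun x y => a + b * N x y).row) ≤
      Submodule.span ℝ (Set.range (Matrix.of N).row) ⊔
        Submodule.span ℝ {(fun _ : Y => (1 : ℝ))} := by
    rw [Submodule.span_le]
    rintro _ ⟨x, rfl⟩
    have h2 : (Matrix.of fun x y => a + b * N x y).row x =
        b • (Matrix.of N).row x + a • (fun _ : Y => (1 : ℝ)) := by
      funext y
      simp [Matrix.row]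
      ring
    rw [h2]
    apply Submodule.add_mem_sup
    · exact Submodule.smul_mem _ _ (Submodule.subset_span ⟨x, rfl⟩)
    · exact Submodule.smul_mem _ _ (Submodule.subset_span rfl)
  calc _ ≤ Module.finrank ℝ ↥(Submodule.span ℝ (Set.range (Matrix.of N).row) ⊔
        Submodule.span ℝ {(fun _ : Y => (1 : ℝ))}) := Submodule.finrank_mono h1
    _ ≤ Module.finrank ℝ (Submodule.span ℝ (Set.range (Matrix.of N).row)) +
        Module.finrank ℝ (Submodule.span ℝ {(fun _ : Y => (1 : ℝ))}) :=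
        Submodule.finrank_add_le_finrank_add_finrank _ _
    _ ≤ _ := by
        gcongr
        have := finrank_span_le_card (R := ℝ) ({(fun _ : Y => (1 : ℝ))} : Set (Y → ℝ))
        simpa using this

theorem rk_le_realRank (F : X → Y → Bool) :
    rk ℝ F Finset.univ Finset.univ ≤ realRank F := by
  classical
  unfold realRank
  rw [Matrix.rank_eq_finrank_span_row]
  unfold rk Pool.Agent.Lib_helper66.LogRank.rowSpace
  have h1 : Submodule.span ℝ (Pool.Agent.Lib_helper66.LogRank.row ℝ F Finset.univ ''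
      ((Finset.univ : Finset X) : Set X)) ≤
      (Submodule.span ℝ (Set.range (Matrix.of fun (x : X) (y : Y) =>
        if F x y then (1 : ℝ) else 0).row)).map
        (LinearMap.funLeft ℝ ℝ (fun y : (Finset.univ : Finset Y) => (y : Y))) := by
    rw [Submodule.span_le]
    rintro _ ⟨x, _, rfl⟩
    exact ⟨_, Submodule.subset_span ⟨x, rfl⟩, rfl⟩
  exact (Submodule.finrank_mono h1).trans (Submodule.finrank_map_le _ _)

end Rank

/-- uniform distribution -/
theorem isPos_unif (X : Type) [Fintype X] [Nonempty X] :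
    IsPos (fun _ : X => (1 : ℝ) / Fintype.card X) := by
  have h : (0 : ℝ) < Fintype.card X := by exact_mod_cast Fintype.card_pos
  constructor
  · intro x
    positivity
  · rw [Finset.sum_const, Finset.card_univ, nsmul_eq_mul]
    field_simp

theorem exp_le_two_pow {t : ℝ} (_ht : 0 ≤ t) : 4 * Real.exp t ≤ 2 ^ (2 + ⌈2 * t⌉₊) := by
  have h1 : Real.exp t ≤ 2 ^ ⌈2 * t⌉₊ := by
    have h2 : t ≤ (⌈2 * t⌉₊ : ℝ) * Real.log 2 := by
      have h3 := Nat.le_ceil (2 * t)
      have h4 := Real.log_two_gt_d9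
      have h5 : (⌈2 * t⌉₊ : ℝ) * (1 / 2) ≤ (⌈2 * t⌉₊ : ℝ) * Real.log 2 :=
        mul_le_mul_of_nonneg_left (by linarith only [h4]) (Nat.cast_nonneg _)
      linarith only [h3, h5]
    calc Real.exp t ≤ Real.exp ((⌈2 * t⌉₊ : ℝ) * Real.log 2) := Real.exp_le_exp.mpr h2
      _ = 2 ^ ⌈2 * t⌉₊ := by
        rw [← Real.log_pow, Real.exp_log (by positivity)]
  rw [pow_add]
  linarith

/-- dense monochromatic rectangles for every Boolean matrix -/
theorem rectDense {s : ℝ} {R0 : ℕ} (hbase : Base s R0) {X Y : Type}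
    [Fintype X] [Fintype Y] (F : X → Y → Bool) {R : ℕ} (hR : 1 ≤ R) (hR0 : R0 ≤ R)
    (hrank : realRank F + 1 ≤ R) {κ : ℝ} (hκ0 : 0 < κ)
    (hκ1 : 32 * κ ≤ 1) (hκs : 16 * κ ≤ s / 8)
    (hκ : 1200 * (24 + 2 * Real.log R) ≤ (R : ℝ) ^ κ) :
    RectDense F (2 + ⌈2 * (R : ℝ) ^ (1 / 2 - κ)⌉₊) := by
  classical
  intro A B hA hB
  have : Nonempty A := hA.coe_sort
  have : Nonempty B := hB.coe_sort
  set N : A → B → ℝ := fun x y => if F x.1 y.1 then 1 else 0 with hN
  have hNr : (Matrix.of N).rank ≤ realRank F :=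
    Matrix.rank_submatrix_le (Matrix.of fun (x : X) (y : Y) => if F x y then (1 : ℝ) else 0)
      (fun x : A => x.1) (fun y : B => y.1)
  have hμ := isPos_unif A
  have hν := isPos_unif B
  set μ₀ : A → ℝ := fun _ => (1 : ℝ) / Fintype.card A with hμ₀
  set ν₀ : B → ℝ := fun _ => (1 : ℝ) / Fintype.card B with hν₀
  have ht : 0 ≤ (R : ℝ) ^ (1 / 2 - κ) := Real.rpow_nonneg (by positivity) _
  -- the main claim for a sign
  have main : ∀ (M : A → B → ℝ) (v : Bool), (∀ x y, M x y = 1 ∨ M x y = -1) →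
      (Matrix.of M).rank ≤ R → (Matrix.of fun x y => (1 - M x y) / 2).rank ≤ R →
      0 ≤ em μ₀ ν₀ M → (∀ x y, M x y = 1 → F x.1 y.1 = v) →
      ∃ A' ⊆ A, ∃ B' ⊆ B, A.card ≤ 2 ^ (2 + ⌈2 * (R : ℝ) ^ (1 / 2 - κ)⌉₊) * A'.card ∧
        B.card ≤ 2 ^ (2 + ⌈2 * (R : ℝ) ^ (1 / 2 - κ)⌉₊) * B'.card ∧
        ∃ v : Bool, ∀ x ∈ A', ∀ y ∈ B', F x y = v := by
    intro M v hM h1 h2 h3 h4
    obtain ⟨A₁, B₁, hAB, hm⟩ := rect hbase hM hR hR0 h1 h2 hκ0 hκ1 hκs hκ hμ hν h3
    have cA : ∑ x ∈ A₁, μ₀ x = (A₁.card : ℝ) / A.card := by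
      simp [hμ₀, Finset.sum_const, nsmul_eq_mul]
      ring
    have cB : ∑ y ∈ B₁, ν₀ y = (B₁.card : ℝ) / B.card := by
      simp [hν₀, Finset.sum_const, nsmul_eq_mul]
      ring
    rw [cA, cB] at hm
    have hA0 : (0 : ℝ) < A.card := by exact_mod_cast hA.card_pos
    have hB0 : (0 : ℝ) < B.card := by exact_mod_cast hB.card_pos
    have hA1 : (A₁.card : ℝ) ≤ A.card := by
      have h5 : A₁.card ≤ Fintype.card A := Finset.card_le_univ _
      rw [Fintype.card_coe] at h5
      exact_mod_cast h5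
    have hB1 : (B₁.card : ℝ) ≤ B.card := by
      have h5 : B₁.card ≤ Fintype.card B := Finset.card_le_univ _
      rw [Fintype.card_coe] at h5
      exact_mod_cast h5
    set t := (R : ℝ) ^ (1 / 2 - κ) with htd
    have hexp := exp_le_two_pow ht
    have he : Real.exp (-t) * Real.exp t = 1 := by
      rw [← Real.exp_add, neg_add_cancel, Real.exp_zero]
    have hpos : 0 < Real.exp t := Real.exp_pos t
    have qA : (A₁.card : ℝ) / A.card ≤ 1 := (div_le_one hA0).mpr hA1
    have qB : (B₁.card : ℝ) / B.card ≤ 1 := (div_le_one hB0).mpr hB1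
    have qA0 : 0 ≤ (A₁.card : ℝ) / A.card := by positivity
    have qB0 : 0 ≤ (B₁.card : ℝ) / B.card := by positivity
    have hA2 : Real.exp (-t) / 4 ≤ (A₁.card : ℝ) / A.card := by
      have h5 := mul_le_mul_of_nonneg_left qB qA0
      linarith only [hm, h5]
    have hB2 : Real.exp (-t) / 4 ≤ (B₁.card : ℝ) / B.card := by
      have h5 := mul_le_mul_of_nonneg_right qA qB0
      linarith only [hm, h5]
    have fin : ∀ (a b : ℝ), 0 < a → Real.exp (-t) / 4 ≤ b / a →
        a ≤ 2 ^ (2 + ⌈2 * t⌉₊) * b := by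
      intro a b ha hab
      rw [le_div_iff₀ ha] at hab
      have h5 : a ≤ 4 * Real.exp t * b := by
        calc a = (Real.exp (-t) * Real.exp t) * a := by rw [he, one_mul]
          _ = 4 * Real.exp t * (Real.exp (-t) / 4 * a) := by ring
          _ ≤ 4 * Real.exp t * b := by
            apply mul_le_mul_of_nonneg_left hab (by positivity)
      have hb : 0 ≤ b := le_trans (by positivity) hab
      exact h5.trans (mul_le_mul_of_nonneg_right hexp hb)
    refine ⟨A₁.map (Function.Embedding.subtype _), ?_, B₁.map (Function.Embedding.subtype _), ?_,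
      ?_, ?_, v, ?_⟩
    · intro x hx
      rw [Finset.mem_map] at hx
      obtain ⟨z, _, rfl⟩ := hx
      exact z.2
    · intro x hx
      rw [Finset.mem_map] at hx
      obtain ⟨z, _, rfl⟩ := hx
      exact z.2
    · rw [Finset.card_map]
      exact_mod_cast fin _ _ hA0 hA2
    · rw [Finset.card_map]
      exact_mod_cast fin _ _ hB0 hB2
    · intro x hx y hy
      rw [Finset.mem_map] at hx hy
      obtain ⟨z, hz, rfl⟩ := hx
      obtain ⟨w, hw, rfl⟩ := hy
      exact h4 z w (hAB z hz w hw)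
  -- the two signs
  set M₁ : A → B → ℝ := fun x y => 1 + (-2) * N x y with hM₁
  set M₂ : A → B → ℝ := fun x y => (-1) + 2 * N x y with hM₂
  have s1 : ∀ x y, M₁ x y = 1 ∨ M₁ x y = -1 := by
    intro x y
    simp only [hM₁, hN]
    split_ifs
    · right; norm_num
    · left; norm_num
  have s2 : ∀ x y, M₂ x y = 1 ∨ M₂ x y = -1 := by
    intro x y
    simp only [hM₂, hN]
    split_ifs
    · left; norm_num
    · right; norm_num
  have r1 : (Matrix.of M₁).rank ≤ R := by
    have h5 : (Matrix.of M₁).rank ≤ (Matrix.of N).rank + 1 := rank_affine N 1 (-2)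
    omega
  have r2 : (Matrix.of M₂).rank ≤ R := by
    have h5 : (Matrix.of M₂).rank ≤ (Matrix.of N).rank + 1 := rank_affine N (-1) 2
    omega
  have r1' : (Matrix.of fun x y => (1 - M₁ x y) / 2).rank ≤ R := by
    have h5 : (fun x y => (1 - M₁ x y) / 2) = N := by
      funext x y
      simp only [hM₁]
      ring
    rw [h5]
    omega
  have r2' : (Matrix.of fun x y => (1 - M₂ x y) / 2).rank ≤ R := by
    have h5 : (fun x y => (1 - M₂ x y) / 2) = fun x y => 1 + (-1) * N x y := by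
      funext x y
      simp only [hM₂]
      ring
    rw [h5]
    have := rank_affine N 1 (-1)
    omega
  have hsum : em μ₀ ν₀ M₂ = -em μ₀ ν₀ M₁ := by
    unfold em
    rw [← Finset.sum_neg_distrib]
    apply Finset.sum_congr rfl
    intro x _
    rw [← Finset.sum_neg_distrib]
    apply Finset.sum_congr rfl
    intro y _
    simp only [hM₁, hM₂]
    ring
  rcases le_total 0 (em μ₀ ν₀ M₁) with h | h
  · refine main M₁ false s1 r1 r1' h fun x y hxy => ?_
    simp only [hM₁, hN] at hxy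
    by_contra hcon
    rw [Bool.not_eq_false] at hcon
    rw [hcon] at hxy
    norm_num at hxy
  · refine main M₂ true s2 r2 r2' (by rw [hsum]; linarith) fun x y hxy => ?_
    simp only [hM₂, hN] at hxy
    by_contra hcon
    rw [Bool.not_eq_true] at hcon
    rw [hcon] at hxy
    norm_num at hxy


theorem realRank_zero {X Y : Type} [Fintype X] [Fintype Y] {F : X → Y → Bool}
    (h : realRank F = 0) (x : X) (y : Y) : F x y = false := by
  classical
  unfold realRank at h
  rw [Matrix.rank_eq_finrank_span_row] at h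
  have h1 := Submodule.finrank_eq_zero.mp h
  rw [Submodule.span_eq_bot] at h1
  have h2 := congrFun (h1 _ ⟨x, rfl⟩) y
  simp only [Matrix.row, Matrix.of_apply, Pi.zero_apply] at h2
  by_contra hcon
  rw [Bool.not_eq_false] at hcon
  rw [hcon] at h2
  norm_num at h2

theorem clog_le {R : ℕ} (hR : 1 ≤ R) : (Nat.clog 2 R : ℝ) ≤ 1 + 2 * Real.log R := by
  have hR1 : (1 : ℝ) ≤ R := by exact_mod_cast hR
  have hlog : 0 ≤ Real.log R := Real.log_nonneg hR1
  rcases Nat.eq_zero_or_pos (Nat.clog 2 R) with h0 | hpos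
  · rw [h0]
    push_cast
    linarith
  · have h3 : 2 ^ (Nat.clog 2 R - 1) < R := by
      apply Nat.pow_pred_clog_lt_self (by norm_num)
      by_contra hlt
      have : R = 1 := by omega
      rw [this] at hpos
      simp at hpos
    have h4 : ((Nat.clog 2 R - 1 : ℕ) : ℝ) * Real.log 2 ≤ Real.log R := by
      rw [← Real.log_pow]
      apply Real.log_le_log (by positivity)
      exact_mod_cast h3.le
    rw [Nat.cast_sub hpos] at h4
    push_cast at h4
    have h5 := Real.log_two_gt_d9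
    by_contra hcon
    rw [not_le] at hcon
    have h6 : ((Nat.clog 2 R : ℝ) - 1) * (1 / 2) ≤ ((Nat.clog 2 R : ℝ) - 1) * Real.log 2 :=
      mul_le_mul_of_nonneg_left (by linarith only [h5]) (by linarith only [hcon, hlog])
    linarith only [h4, h6, hcon]

/-- **The top of the proof.** -/
theorem top {s κ : ℝ} {R0 : ℕ} (hbase : Base s R0) (hκ0 : 0 < κ) (hκ1 : 32 * κ ≤ 1)
    (hκs : 16 * κ ≤ s / 8) :
    ∃ C : ℝ, ∀ (X Y : Type) [Fintype X] [Fintype Y] (F : X → Y → Bool),
      ∃ π : Protocol X Y, (∀ x y, π.eval x y = F x y) ∧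
        (π.cost : ℝ) ≤ C * (realRank F : ℝ) ^ (1 / 2 - κ / 2) := by
  obtain ⟨R1, hR1, hthr⟩ := eventually_thr (show 0 < κ / 2 by positivity)
  set R2 : ℕ := max R0 R1 with hR2
  have hR2' : 1 ≤ R2 := hR1.trans (le_max_right _ _)
  refine ⟨3 * (R2 + 1), ?_⟩
  intro X Y _ _ F
  rcases Nat.eq_zero_or_pos (realRank F) with hr | hr
  · refine ⟨.leaf false, fun x y => ?_, ?_⟩
    · rw [realRank_zero hr x y]
      rfl
    · have h1 : (0 : ℝ) ≤ 3 * (R2 + 1) * (realRank F : ℝ) ^ (1 / 2 - κ / 2) := by positivity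
      simpa [Protocol.cost] using h1
  set r := realRank F with hrd
  set R : ℕ := max (r + 1) R2 with hRd
  have hRR2 : R2 ≤ R := le_max_right _ _
  have hRr : r + 1 ≤ R := le_max_left _ _
  have hR : 1 ≤ R := hR2'.trans hRR2
  have hRone : (1 : ℝ) ≤ R := by exact_mod_cast hR
  have hRpos : (0 : ℝ) < R := by linarith
  have hR0 : R0 ≤ R := (le_max_left _ _).trans hRR2
  have hthrR := hthr R ((le_max_right _ _).trans hRR2)
  have hthr' : 1200 * (24 + 2 * Real.log R) ≤ (R : ℝ) ^ κ :=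
    hthrR.trans (Real.rpow_le_rpow_of_exponent_le hRone (by linarith))
  have hdense := rectDense hbase F hR hR0 hRr hκ0 hκ1 hκs hthr'
  set ℓ : ℕ := Nat.clog 2 R with hℓ
  have hRℓ : R ≤ 2 ^ ℓ := Nat.le_pow_clog (by norm_num) R
  obtain ⟨π, hcost, heval⟩ := nw (K := ℝ) F _ ℓ hdense (by
    have h1 := rk_le_realRank F
    omega)
  refine ⟨π, heval, ?_⟩
  have hclog := clog_le hR
  rw [← hℓ] at hclog
  have hlog : 0 ≤ Real.log R := Real.log_nonneg hRone
  have hℓb : 1200 * (ℓ : ℝ) ≤ (R : ℝ) ^ (κ / 2) := by linarith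
  set t : ℝ := (R : ℝ) ^ (1 / 2 - κ) with ht
  have ht1 : 1 ≤ t := Real.one_le_rpow hRone (by linarith)
  have hceil : (⌈2 * t⌉₊ : ℝ) ≤ 2 * t + 1 := (Nat.ceil_lt_add_one (by linarith)).le
  have hbt : (R : ℝ) ^ (κ / 2) ≤ t := Real.rpow_le_rpow_of_exponent_le hRone (by linarith)
  have hℓ0 : (0 : ℝ) ≤ ℓ := Nat.cast_nonneg _
  have hcostR : (π.cost : ℝ) ≤ 2 + ℓ * (2 * ((2 + ⌈2 * t⌉₊) + ℓ + 2)) := by exact_mod_cast hcost
  have hprod : (R : ℝ) ^ (κ / 2) * t = (R : ℝ) ^ (1 / 2 - κ / 2) := by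
    rw [ht, ← Real.rpow_add hRpos]
    congr 1
    ring
  have hone : 1 ≤ (R : ℝ) ^ (1 / 2 - κ / 2) := Real.one_le_rpow hRone (by linarith)
  have h1 : (π.cost : ℝ) ≤ 3 * (R : ℝ) ^ (1 / 2 - κ / 2) := by
    have h2 : 2 * ((2 + (⌈2 * t⌉₊ : ℝ)) + ℓ + 2) ≤ 16 * t := by linarith
    have h3 : (ℓ : ℝ) * (2 * ((2 + (⌈2 * t⌉₊ : ℝ)) + ℓ + 2)) ≤ ℓ * (16 * t) :=
      mul_le_mul_of_nonneg_left h2 hℓ0
    have h4 : (ℓ : ℝ) * (16 * t) ≤ (R : ℝ) ^ (κ / 2) * t := by
      have h5 : (16 * ℓ : ℝ) * t ≤ (R : ℝ) ^ (κ / 2) * t :=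
        mul_le_mul_of_nonneg_right (by linarith only [hℓb, hℓ0]) (by linarith only [ht1])
      linarith only [h5]
    rw [hprod] at h4
    linarith
  refine h1.trans ?_
  have h2 : (R : ℝ) ≤ (R2 + 1) * r := by
    have h3 : R ≤ (R2 + 1) * r := by
      rw [hRd]
      apply max_le
      · have h5 : 1 ≤ R2 * r := Nat.mul_pos hR2' hr
        linarith only [h5]
      · have h6 : R2 * 1 ≤ R2 * r := Nat.mul_le_mul_left _ hr
        linarith only [h6]
    exact_mod_cast h3
  have hrone : (1 : ℝ) ≤ r := by exact_mod_cast hr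
  have h3 : (R : ℝ) ^ (1 / 2 - κ / 2) ≤ (R2 + 1) * (r : ℝ) ^ (1 / 2 - κ / 2) := by
    calc (R : ℝ) ^ (1 / 2 - κ / 2) ≤ ((R2 + 1) * (r : ℝ)) ^ (1 / 2 - κ / 2) :=
          Real.rpow_le_rpow hRpos.le h2 (by linarith)
      _ = ((R2 : ℝ) + 1) ^ (1 / 2 - κ / 2) * (r : ℝ) ^ (1 / 2 - κ / 2) :=
          Real.mul_rpow (by positivity) (by positivity)
      _ ≤ ((R2 : ℝ) + 1) ^ (1 : ℝ) * (r : ℝ) ^ (1 / 2 - κ / 2) := by
          apply mul_le_mul_of_nonneg_right _ (by positivity)
          apply Real.rpow_le_rpow_of_exponent_le _ (by linarith)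
          have : (0 : ℝ) ≤ R2 := Nat.cast_nonneg _
          linarith
      _ = _ := by rw [Real.rpow_one]
  calc 3 * (R : ℝ) ^ (1 / 2 - κ / 2) ≤ 3 * ((R2 + 1) * (r : ℝ) ^ (1 / 2 - κ / 2)) := by
        linarith
    _ = _ := by ring

end Top

end Pool.Agent.LR2
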